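import Pool.Agent.T9h30.PG.Fam

/-!
# The rank conjecture over abelian extensions of odd prime power degree

`K` is an imaginary quadratic field of class number one, `E : y² = x³ + a x + b` is an elliptic curve over `K`
(which need not be the base change of a curve over `ℚ`, nor have complex multiplication), `f` is its
newform: the Bianchi newform of weight two over `K` with `L(E/K, s) = L(f, s)`, Euler factor by Euler factor; and `p` is
an odd prime.

Suppose that `E(K)` has no element of order `p`, that the `p`-Selmer group of `E/K` is trivial, and that the central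
value is prime to `p`: the value `Φ(0)` of the primitive `Φ` of the harmonic differential of `f` at the cusp `0` is not in
`p Λ`, where `Λ ≅ ℤ` is the group of the values of `Φ` at the cusps `x/m`, `m` prime to the level.

A place `v ∤ 2p(4a³ + 27b²)` of `K` is admissible if `p` does not divide the number of the points of `E` over the residue
field of `v`.

Theorem. (1) Let `m` be prime to `p` such that all places `v ∣ m` of `K` are admissible, and let `F` be any subfield of
`K(ζ_m)` of `p`-power degree over `K` in which the places `v ∣ 2p(4a³ + 27b²)` split completely. Then the `L`-series of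
`E` over `F` (that of Mathlib) has a meromorphic continuation to `ℂ`, which is analytic and not zero at `s = 1`, `E(F)` is
finite of an order prime to `p`, and so the equality of Birch and Swinnerton-Dyer
`ord_{s = 1} L(E/F, s) = rank E(F)` holds, both sides being zero, for every continuation of the `L`-series.
(2) Suppose that for one prime number `l₀` all the places of `K` above `l₀` are admissible, of a norm which is `1` modulo
`p`. Then for every `N` there is a set `P` of prime numbers `l ≡ 1` modulo `p ^ N`, which has positive density among all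
prime numbers, such that the same holds for all `F ⊆ K(ζ_m)` with a Galois group over `K` of exponent dividing `p ^ N`, for
all `m` which are products of different elements of `P` (`F` has any degree up to `p ^ (N r)`, `r` the number of the
prime divisors of `m`).
(3) The same holds for all abelian extensions `F/K` of `p`-power degree (of any exponent; in general they are not Galois
over `ℚ`) in which the places `v ∣ 2p(4a³ + 27b²)` split completely and which are class fields of characters of `K` whose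
conductors are products of different admissible places, in the sense that the law of reciprocity holds for them.

The proof (`Pool/Agent/T9h30/PG`). The descent: for `F/K` of `p`-power degree as in the theorem the group `E(F)/pE(F)` is
trivial, by a filtration argument for the action of the `p`-group `Gal(F/K)` on the cocycles with the Selmer conditions
over `F`, the Frobenius automorphisms of the admissible places having no fixed vector in `E[p]`. The values: `L(f ⊗ χ, s)`
is entire and not zero at `s = 1`, by congruences modulo the primes above `p`. `L(E/F, s)`, in the sense of Mathlib, is the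
product of these functions up to finitely many Euler factors. For (1) the law of reciprocity is proved, from the
action of the Galois group of `K(ζ_m)` on the roots of unity. For (2) Chebotarev's theorem over `K`, from the library, is
applied to a power of the Frobenius automorphism of a place above `l₀` in the field generated by the points of order `p` of
`E` and of the conjugate curve, the roots of unity of order `p ^ N` and the roots of order `p ^ N` of the norms of the
places `v ∣ 2p(4a³ + 27b²)`; a place whose Frobenius automorphism has no fixed vector in `E[p]` is admissible, as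
`#E[p] = p²` and the reduction has at most `2p²` points killed by `p`.
-/

set_option autoImplicit false

open NumberField IsDedekindDomain Filter Topology

namespace Pool.Agent.Results.MP_cd906c_nt.AbelianOddPrimeExtensions

/-- The curve `E : y² = x³ + a x + b`. -/
def curve {R : Type} [CommRing R] (a b : R) : WeierstrassCurve R := ⟨0, 0, 0, a, b⟩

/-- `K` is an imaginary quadratic field, `σ` is one of its two embeddings in `ℂ`, and `δ` generates the
different of `K`: an `x ∈ K` is in `𝓞` if and only if `Tr(x y / δ) ∈ ℤ` for all `y ∈ 𝓞`. -/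
structure IsFieldData (K : Type) [Field K] [NumberField K] (σ : K →+* ℂ) (δ : K) : Prop where
  quadratic : Module.finrank ℚ K = 2
  imaginary : ∃ x, (starRingEnd ℂ) (σ x) ≠ σ x
  different : ∀ x : K, (∃ a : 𝓞 K, (a : K) = x) ↔
    ∀ y : 𝓞 K, ∃ m : ℤ, Algebra.trace ℚ K (x * y / δ) = m

/-- `h(y) = ∫_0^∞ exp(-1/v - y v) dv = 2 y^(-1/2) K₁(2 √y)`, with the Bessel function `K₁`. -/
noncomputable def bessel (y : ℝ) : ℝ := ∫ v in Set.Ioi (0 : ℝ), Real.exp (-(1 / v) - y * v)

/-- The additive character `e(z) = exp(2πi (z/δ + conj (z/δ)))` of `ℂ`, trivial on `𝓞`. -/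
noncomputable def addChar (δ z : ℂ) : ℂ :=
  Complex.exp (2 * Real.pi * Complex.I * (z / δ + (starRingEnd ℂ) (z / δ)))

/-- The denominator `|c z + d|² + |c|² t²` of the action of the matrix `(a, b; c, d)` on the hyperbolic
space `{(z, t) : z ∈ ℂ, t > 0}`. -/
noncomputable def den (c d z : ℂ) (t : ℝ) : ℝ := ‖c * z + d‖ ^ 2 + ‖c‖ ^ 2 * t ^ 2

/-- The first coordinate `((a z + b) conj (c z + d) + a conj(c) t²) / (|c z + d|² + |c|² t²)` of the image
of `(z, t)` under the matrix `(a, b; c, d)`. -/
noncomputable def actZ (a b c d z : ℂ) (t : ℝ) : ℂ :=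
  ((a * z + b) * (starRingEnd ℂ) (c * z + d) + a * (starRingEnd ℂ) c * (t : ℂ) ^ 2) /
    (den c d z t : ℂ)

/-- The second coordinate, for a matrix of determinant one; in general it is `|ad - bc|` times this. -/
noncomputable def actT (c d z : ℂ) (t : ℝ) : ℝ := t / den c d z t

section field
variable {K : Type} [Field K] [NumberField K]

/-- The function `Φ(z, t) = ∑_{x ∈ 𝓞} c((x)) t² h(N(x) (2πt/|δ|)²) e(x z)
  = (|δ|/π) ∑_{x ≠ 0} (c((x))/|x|) t K₁(4π|x|t/|δ|) e(x z)` on the hyperbolic space, with the coefficients `c`.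
Up to a constant factor it is the primitive, zero at the cusp `∞`, of the harmonic differential of the
form of weight two with the Fourier coefficients `c`: its derivative by `t` is
`-4 ∑_{x ≠ 0} c((x)) t K₀(4π|x|t/|δ|) e(x z)`. -/
noncomputable def primitive (σ : K →+* ℂ) (δ : K) (c : Ideal (𝓞 K) → ℂ) (z : ℂ) (t : ℝ) : ℂ :=
  ∑' x : 𝓞 K, c (Ideal.span {x}) * ((t ^ 2 * bessel (Ideal.absNorm (Ideal.span {x}) *
    (2 * Real.pi * t / ‖σ δ‖) ^ 2) : ℝ) : ℂ) * addChar (σ δ) (σ x * z)

/-- The group `Λ` generated by the values of the primitive `Φ` at the cusps `x/m`, `m ≠ 0` prime to the level (that is,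
by the limits of `Φ(x/m, t)` for `t → 0`). -/
def Lam (σ : K →+* ℂ) (δ : K) (n : 𝓞 K) (c : Ideal (𝓞 K) → ℂ) : AddSubgroup ℂ :=
  AddSubgroup.closure {z | ∃ x m : 𝓞 K, m ≠ 0 ∧ IsCoprime m n ∧
    Tendsto (fun t => primitive σ δ c (σ x / σ m) t) (𝓝[>] 0) (𝓝 z)}

/-- The numbers `c(I)` are the Hecke eigenvalues of a Bianchi newform `f` of weight two, level `(n)` and
trivial character over `K`, with rational eigenvalues: they satisfy `c(𝓞) = 1`, the (trivial) bound `c(I) = O(N(I))`
and the Hecke relations `c(v I) = c(v) c(I)` for `v ∤ I`, `c(v² I) = c(v) c(v I) - N(v) c(I)` for the primes `v ∤ n`, and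
`c(v I) = c(v) c(I)` for `v ∣ n`; the differential `dΦ` of the function `Φ` with the coefficients `c` is
invariant under `Γ₀(n)`, that is, `Φ(γ P) - Φ(P)` is a constant for every `γ ∈ Γ₀(n)`; `dΦ` is an
eigenform, with the eigenvalue `±1`, of the Fricke involution `W = (0, -1; n, 0)`; and the group `Λ` of the values of `Φ` at
cusps is cyclic (this is so for rational eigenvalues, by multiplicity one and the theorem of Manin, Drinfeld and
Kurčanov: the quotient of `H₁(Γ₀(n), cusps; ℤ)` which belongs to `f` has rank one). -/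
structure IsNewform (σ : K →+* ℂ) (δ : K) (n : 𝓞 K) (c : Ideal (𝓞 K) → ℂ) : Prop where
  level : n ≠ 0
  zero : c ⊥ = 0
  one : c ⊤ = 1
  bound : ∃ C : ℝ, ∀ I, ‖c I‖ ≤ C * Ideal.absNorm I
  good : ∀ v : HeightOneSpectrum (𝓞 K), n ∉ v.asIdeal → ∀ I,
    (¬ v.asIdeal ∣ I → c (v.asIdeal * I) = c v.asIdeal * c I) ∧
    c (v.asIdeal * (v.asIdeal * I)) = c v.asIdeal * c (v.asIdeal * I) -
      Ideal.absNorm v.asIdeal * c I
  bad : ∀ v : HeightOneSpectrum (𝓞 K), n ∈ v.asIdeal → ∀ I,
    c (v.asIdeal * I) = c v.asIdeal * c I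
  invariant : ∃ κ : Matrix.SpecialLinearGroup (Fin 2) (𝓞 K) → ℂ,
    ∀ γ : Matrix.SpecialLinearGroup (Fin 2) (𝓞 K), n ∣ γ.1 1 0 → ∀ (z : ℂ) (t : ℝ), 0 < t →
      primitive σ δ c (actZ (σ (γ.1 0 0)) (σ (γ.1 0 1)) (σ (γ.1 1 0)) (σ (γ.1 1 1)) z t)
        (actT (σ (γ.1 1 0)) (σ (γ.1 1 1)) z t) = primitive σ δ c z t + κ γ
  fricke : ∃ w κ : ℂ, w * w = 1 ∧ ∀ (z : ℂ) (t : ℝ), 0 < t →
    primitive σ δ c (actZ 0 (-1) (σ n) 0 z t) (‖σ n‖ * actT (σ n) 0 z t) =
      -w * primitive σ δ c z t + κ
  cyclic : ∃ ω ∈ Lam σ δ n c, ∀ l ∈ Lam σ δ n c, ∃ j : ℤ, l = j * ω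

/-- The central value is prime to `p`: `Φ(0)`, the limit of `Φ(0, t)` for `t → 0`, is not in `p Λ`. -/
def UnitCentralValue (σ : K →+* ℂ) (δ : K) (n : 𝓞 K) (c : Ideal (𝓞 K) → ℂ) (p : ℕ) : Prop :=
  ∃ z₀ : ℂ, Tendsto (fun t => primitive σ δ c 0 t) (𝓝[>] 0) (𝓝 z₀) ∧
    ∀ y ∈ Lam σ δ n c, z₀ ≠ p * y

open Classical in
/-- `f` is the newform of the curve `E`, that is, `L(E/K, s) = L(f, s)`, Euler factor by Euler factor: at every
finite place `v` of `K` the polynomial of the local factor of `E` (that of Mathlib) is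
`1 - c(v) X + N(v) X²` if `v ∤ n`, and `1 - c(v) X` if `v ∣ n`. -/
def IsNewformOf (E : WeierstrassCurve K) (n : 𝓞 K) (c : Ideal (𝓞 K) → ℂ) : Prop :=
  ∀ v : HeightOneSpectrum (𝓞 K),
    ((E.baseChange (v.adicCompletion K)).localPolynomial (v.adicCompletionIntegers K)).map
      (Int.castRingHom ℂ) = 1 - Polynomial.C (c v.asIdeal) * Polynomial.X +
        Polynomial.C (if n ∈ v.asIdeal then 0 else (Ideal.absNorm v.asIdeal : ℂ)) * Polynomial.X ^ 2

/-- The group `E(M)`, for an extension `M` of `K` and the curve `E : y² = x³ + a x + b` over `K`. -/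
abbrev Pts (a b : K) (M : Type) [Field M] [Algebra K M] : Type :=
  ((curve a b).baseChange M).toAffine.Point

/-- The homomorphism `E(M) → E(M')` given by a homomorphism `M → M'` over `K`. -/
noncomputable def push {a b : K} {M M' : Type} [Field M] [Field M'] [Algebra K M] [Algebra K M']
    [DecidableEq M] [DecidableEq M'] (f : M →ₐ[K] M') : Pts a b M →+ Pts a b M' :=
  WeierstrassCurve.Affine.Point.map (W' := (curve a b).toAffine) (S := K) f

/-- An algebraic closure of the completion `K_v`. -/
abbrev Clo (v : HeightOneSpectrum (𝓞 K)) : Type := AlgebraicClosure (v.adicCompletion K)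

open Classical in
/-- `f : Gal(M/K) → E(M)` is a cocycle with values of order `p` whose class in `H¹(K, E[p])` is in the `p`-Selmer
group of `E/K`, `M/K` being a finite Galois extension: it is zero on the inertia groups of the places
`w ∤ 2p(4a³ + 27b²)` of `M`, and at the places `v ∣ 2p(4a³ + 27b²)` of `K` its class becomes trivial in
`H¹(K_v, E)`: for every embedding `ι` of `M` in the algebraic closure of `K_v` there is a point `P` over this closure with
`ι(f(s)) = τ(P) - P` for all `τ` in the Galois group of `K_v`, where `s` is the restriction of `τ` to `M`. -/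
structure IsSelmerCocycle (a b : 𝓞 K) (p : ℕ) {M : Type} [Field M] [NumberField M] [Algebra K M]
    [DecidableEq M] (f : (M ≃ₐ[K] M) → Pts (a : K) (b : K) M) : Prop where
  cocycle : ∀ g h : M ≃ₐ[K] M, f (g * h) = f g + push (g : M →ₐ[K] M) (f h)
  torsion : ∀ g : M ≃ₐ[K] M, p • f g = 0
  unramified : ∀ w : HeightOneSpectrum (𝓞 M),
    algebraMap (𝓞 K) (𝓞 M) (2 * p * (4 * a ^ 3 + 27 * b ^ 2)) ∉ w.asIdeal →
      ∀ g : M ≃ₐ[K] M, (∀ x : 𝓞 M, g • x - x ∈ w.asIdeal) → f g = 0
  localCondition : ∀ v : HeightOneSpectrum (𝓞 K), 2 * p * (4 * a ^ 3 + 27 * b ^ 2) ∈ v.asIdeal →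
    ∀ ι : M →ₐ[K] Clo v, ∃ P : Pts (a : K) (b : K) (Clo v),
      ∀ (τ : Clo v ≃ₐ[v.adicCompletion K] Clo v) (s : M ≃ₐ[K] M), (∀ x, τ (ι x) = ι (s x)) →
        push ι (f s) = push (τ.restrictScalars K : Clo v →ₐ[K] Clo v) P - P

/-- The `p`-Selmer group of `E/K` is trivial: all the cocycles in it, for all finite Galois extensions `M/K`, are the
coboundaries `g ↦ g(T) - T` of points `T` of `E(M)` of order `p`. -/
def TrivialSelmer (a b : 𝓞 K) (p : ℕ) : Prop :=
  ∀ (M : Type) [Field M] [DecidableEq M] [NumberField M] [Algebra K M] [IsGalois K M]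
    (f : (M ≃ₐ[K] M) → Pts (a : K) (b : K) M), IsSelmerCocycle a b p f →
      ∃ T : Pts (a : K) (b : K) M, p • T = 0 ∧ ∀ g : M ≃ₐ[K] M, f g = push (g : M →ₐ[K] M) T - T

open Classical in
/-- `E(K)` has no element of order `p`. -/
def NoTorsion (a b : 𝓞 K) (p : ℕ) : Prop := ∀ T : Pts (a : K) (b : K) K, p • T = 0 → T = 0

/-- The number of the points of `y² = x³ + a x + b`, with the point at infinity, over the residue field of `v`. -/
noncomputable def points (a b : 𝓞 K) (v : HeightOneSpectrum (𝓞 K)) : ℕ :=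
  Nat.card {P : (𝓞 K ⧸ v.asIdeal) × (𝓞 K ⧸ v.asIdeal) //
    P.2 ^ 2 = P.1 ^ 3 + Ideal.Quotient.mk v.asIdeal a * P.1 + Ideal.Quotient.mk v.asIdeal b} + 1

/-- The admissible places: `v ∤ 2p(4a³ + 27b²)`, and the number of the points of `E` over the residue field of `v` is not
divisible by `p`. -/
def Admissible (a b : 𝓞 K) (p : ℕ) (v : HeightOneSpectrum (𝓞 K)) : Prop :=
  2 * (p : 𝓞 K) * (4 * a ^ 3 + 27 * b ^ 2) ∉ v.asIdeal ∧ ¬ p ∣ points a b v

/-- `χ` is a character of `K` of `p`-power order and of conductor `∏_{v ∈ T} v`, as a function on `𝓞` (`K` has class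
number one): a primitive character modulo the product of the `v ∈ T`, trivial on the units, and zero on the `x` which
are not prime to the conductor. -/
structure IsCharacter (p : ℕ) (T : Finset (HeightOneSpectrum (𝓞 K))) (χ : 𝓞 K → ℂ) : Prop where
  one : χ 1 = 1
  mul : ∀ x y, χ (x * y) = χ x * χ y
  zero : ∀ x, χ x = 0 ↔ ∃ v ∈ T, x ∈ v.asIdeal
  periodic : ∀ x y, (∀ v ∈ T, x - y ∈ v.asIdeal) → χ x = χ y
  units : ∀ u, IsUnit u → χ u = 1
  primitive : ∀ v ∈ T, ∃ x, (∀ v' ∈ T, v' ≠ v → x - 1 ∈ v'.asIdeal) ∧ χ x ≠ 0 ∧ χ x ≠ 1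
  order : ∃ k : ℕ, ∀ x, χ x ≠ 0 → χ x ^ p ^ k = 1

/-- The set `P` of prime numbers has positive lower density: there is a `d > 0` such that for all large `X` at least
`d π(X)` elements of `P` are at most `X`. -/
def PositiveDensity (P : Set ℕ) : Prop :=
  ∃ d : ℝ, 0 < d ∧ ∀ᶠ X : ℕ in atTop, d * Nat.primeCounting X ≤ {l : ℕ | l ≤ X ∧ l ∈ P}.ncard

section extension

variable (F : Type) [Field F] [NumberField F] [Algebra K F]

/-- The places `v ∣ 2p(4a³ + 27b²)` of `K` split completely in the Galois extension `F/K` (there is an embedding of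
`F` in `K_v`). -/
def Splits (a b : 𝓞 K) (p : ℕ) : Prop :=
  ∀ v : HeightOneSpectrum (𝓞 K), 2 * (p : 𝓞 K) * (4 * a ^ 3 + 27 * b ^ 2) ∈ v.asIdeal →
    Nonempty (F →ₐ[K] v.adicCompletion K)

/-- The places `u` of `F` above `v`. -/
def Above (v : HeightOneSpectrum (𝓞 K)) : Type :=
  {u : HeightOneSpectrum (𝓞 F) // u.asIdeal.comap (algebraMap (𝓞 K) (𝓞 F)) = v.asIdeal}

/-- `F` is the class field of a group of characters of `K` of `p`-power order, of conductors which are products of
different admissible places: `F/K` is an abelian extension of `p`-power degree, and for each of the characters `ψ` of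
its Galois group there is such a character `χ` of `K`, of conductor `∏_{v ∈ T} v`, with the law of reciprocity:
`ψ(t) = χ(v)` for all places `v ∉ T` of `K` and all Frobenius automorphisms `t ∈ Gal(F/K)` at places of `F` above
`v`. -/
structure IsClassField [IsPrincipalIdealRing (𝓞 K)] (a b : 𝓞 K) (p : ℕ) : Prop where
  galois : IsGalois K F
  degree : ∃ k : ℕ, Module.finrank K F = p ^ k
  abelian : ∀ s t : F ≃ₐ[K] F, s * t = t * s
  reciprocity : ∀ ψ : (F ≃ₐ[K] F) →* ℂ, ∃ (T : Finset (HeightOneSpectrum (𝓞 K))) (χ : 𝓞 K → ℂ),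
    IsCharacter p T χ ∧ (∀ v ∈ T, Admissible a b p v) ∧
    ∀ v : HeightOneSpectrum (𝓞 K), v ∉ T → ∀ (u : Above F v) (t : F ≃ₐ[K] F),
      (∀ x : 𝓞 F, t • x - x ^ Ideal.absNorm v.asIdeal ∈ u.1.asIdeal) →
      ψ t = χ (Submodule.IsPrincipal.generator v.asIdeal)

end extension

end field

section conj

variable {F : Type} [Field F] [NumberField F]

/-- `H` is equal to `L(E/F, s)` for `Re s > 2` and it is meromorphic at the real points of `[1, 2]` -/
def Continues (E : WeierstrassCurve F) (H : ℂ → ℂ) : Prop :=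
  (∀ x : ℝ, 1 ≤ x → x ≤ 2 → MeromorphicAt H (x : ℂ)) ∧ ∀ s : ℂ, 2 < s.re → H s = E.LSeries s

/-- the rank of the group `E(F)` -/
noncomputable def rank (E : WeierstrassCurve F) [DecidableEq F] : ℕ :=
  Module.finrank ℤ E.toAffine.Point

/-- The rank form of the conjecture of Birch and Swinnerton-Dyer for `E/F`, with both sides zero: `L(E/F, s)` has a
meromorphic continuation to `ℂ`, and every continuation has the order `0` at `s = 1`, which is the rank of
`E(F)`; and `E(F)` is finite, of an order prime to `p`. -/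
structure RankZero (p : ℕ) (E : WeierstrassCurve F) [DecidableEq F] : Prop where
  exists_continuation : ∃ H : ℂ → ℂ, MeromorphicOn H Set.univ ∧ AnalyticAt ℂ H 1 ∧
    Continues E H ∧ analyticOrderAt H 1 = (rank E : ℕ∞)
  order : ∀ H : ℂ → ℂ, Continues E H → meromorphicOrderAt H 1 = ((rank E : ℤ) : WithTop ℤ) ∧
    (AnalyticAt ℂ H 1 → analyticOrderAt H 1 = (rank E : ℕ∞))
  rank_zero : rank E = 0
  finite : Finite E.toAffine.Point
  prime_to : ¬ p ∣ Nat.card E.toAffine.Point

end conj

lemma coef_eq {a e a' e' : ℂ} (h : (1 - Polynomial.C a * Polynomial.X +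
    Polynomial.C e * Polynomial.X ^ 2 : Polynomial ℂ) = 1 - Polynomial.C a' * Polynomial.X +
      Polynomial.C e' * Polynomial.X ^ 2) : a = a' ∧ e = e' := by
  have h1 := congrArg (Polynomial.eval 1) h
  have h2 := congrArg (Polynomial.eval (-1)) h
  simp only [Polynomial.eval_add, Polynomial.eval_sub, Polynomial.eval_one, Polynomial.eval_mul,
    Polynomial.eval_C, Polynomial.eval_X, Polynomial.eval_pow] at h1 h2
  constructor
  · linear_combination (1 / 2 : ℂ) * h2 - (1 / 2 : ℂ) * h1
  · linear_combination (1 / 2 : ℂ) * h1 + (1 / 2 : ℂ) * h2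

section proof

variable {K : Type} [Field K] [NumberField K]

lemma nf_of {a b n : 𝓞 K} {c : Ideal (𝓞 K) → ℂ} (hE : IsNewformOf (curve (a : K) (b : K)) n c) :
    T9h30.BT.IsNF (T9h30.BT.cv (a : K) (b : K)) n c := by
  intro v
  have h1 := hE v
  have h2 := W189.NF.localPolynomial_eq (v.adicCompletionIntegers K)
    ((curve (a : K) (b : K)).baseChange (v.adicCompletion K))
  rw [h2] at h1
  have h3 : W189.NF.aLoc (v.adicCompletionIntegers K)
      ((curve (a : K) (b : K)).baseChange (v.adicCompletion K)) =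
      W189.NF.aV (T9h30.BT.cv (a : K) (b : K)) v := rfl
  have h4 : W189.NF.eLoc (v.adicCompletionIntegers K)
      ((curve (a : K) (b : K)).baseChange (v.adicCompletion K)) =
      W189.NF.eV (T9h30.BT.cv (a : K) (b : K)) v := rfl
  rw [h3, h4, Polynomial.map_add, Polynomial.map_sub, Polynomial.map_one, Polynomial.map_mul,
    Polynomial.map_C, Polynomial.map_X, Polynomial.map_mul, Polynomial.map_C, Polynomial.map_pow,
    Polynomial.map_X] at h1
  obtain ⟨c1, c2⟩ := coef_eq h1
  rw [eq_intCast] at c1 c2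
  refine ⟨c1.symm, fun hn => ?_, fun hn => ?_⟩
  · rw [if_pos hn] at c2
    exact_mod_cast c2
  · rw [if_neg hn] at c2
    exact_mod_cast c2

omit [NumberField K] in
/-- the two sides -/
theorem rankZero_of {F : Type} [Field F] [DecidableEq F] [NumberField F] [Algebra K F] {a b : 𝓞 K}
    {p : ℕ} (h : (Finite (T9h30.BT.cF F a b).toAffine.Point ∧
      ¬ p ∣ Nat.card (T9h30.BT.cF F a b).toAffine.Point) ∧
      ∃ H : ℂ → ℂ, MeromorphicOn H Set.univ ∧ AnalyticAt ℂ H 1 ∧ H 1 ≠ 0 ∧
        ∀ s : ℂ, 2 < s.re → H s = (T9h30.BT.cF F a b).LSeries s) :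
    RankZero p ((curve (a : K) (b : K)).baseChange F) := by
  have hcF : (curve (a : K) (b : K)).baseChange F = T9h30.BT.cF F a b := by
    unfold curve T9h30.BT.cF T9h30.BT.cv WeierstrassCurve.baseChange WeierstrassCurve.map
    simp
  rw [hcF]
  obtain ⟨⟨h1, h2⟩, H₀, hH1, hH2, hH3, hH4⟩ := h
  have hrank : rank (T9h30.BT.cF F a b) = 0 :=
    Module.finrank_eq_zero_of_rank_eq_zero (rank_eq_zero_iff.2 fun x =>
      ⟨Nat.card (T9h30.BT.cF F a b).toAffine.Point,
        by exact_mod_cast Nat.card_pos.ne', by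
          rw [natCast_zsmul]
          exact card_nsmul_eq_zero'⟩)
  have hord : meromorphicOrderAt H₀ 1 = 0 := by
    rw [hH2.meromorphicOrderAt_eq, analyticOrderAt_eq_zero.2 (Or.inr hH3)]
    rfl
  refine ⟨⟨H₀, hH1, hH2, ⟨fun x _ _ => hH1 _ (Set.mem_univ _), fun s hs => hH4 s hs⟩, ?_⟩,
    fun H hH => ?_, hrank, h1, h2⟩
  · rw [hrank, analyticOrderAt_eq_zero.2 (Or.inr hH3)]
    rfl
  · have h1 := T9h30.BT.order_same hH1 hH.1 (fun s hs => by
      rw [hH.2 s hs]
      exact (hH4 s hs).symm)
    rw [hord] at h1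
    refine ⟨by rw [hrank]; exact h1, fun hA => ?_⟩
    rw [hrank]
    have h2 := hA.meromorphicOrderAt_eq
    rw [h1] at h2
    have h3 : analyticOrderAt H 1 ≠ ⊤ := by
      intro h
      rw [h] at h2
      exact WithTop.coe_ne_top h2
    obtain ⟨m, hm⟩ := WithTop.ne_top_iff_exists.1 h3
    rw [← hm] at h2 ⊢
    have h4 : ((0 : ℤ) : WithTop ℤ) = ((m : ℤ) : WithTop ℤ) := h2
    have h5 : m = 0 := by exact_mod_cast h4.symm
    rw [h5]
    rfl

lemma selT {a b : 𝓞 K} {p : ℕ} (h : TrivialSelmer a b p) : T9h30.PG.SelT a b p := by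
  intro M _ _ _ _ _ f hf
  exact h M f ⟨hf.coc, hf.tor, hf.unr, hf.loc⟩

omit [NumberField K] in
lemma bc_eq {F : Type} [Field F] [NumberField F] [Algebra K F] {a b : 𝓞 K} :
    (T9h30.BT.cv (a : K) (b : K)).baseChange F = T9h30.BT.cF F a b := by
  unfold T9h30.BT.cF WeierstrassCurve.baseChange
  rw [T9h30.BT.cv_map]

/-- duality -/
lemma exists_dual {G : Type} [Group G] [Finite G] (hc : ∀ s t : G, s * t = t * s) {g : G}
    (hg : ∀ ψ : G →* ℂˣ, ψ g = 1) : g = 1 := by
  let _ : CommGroup G := { (inferInstance : Group G) with mul_comm := hc }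
  by_contra h1
  have h0 : NeZero (Monoid.exponent G) := ⟨Monoid.exponent_ne_zero_of_finite⟩
  obtain ⟨φ, hφ⟩ := CommGroup.exists_apply_ne_one_of_hasEnoughRootsOfUnity G ℂ h1
  exact hφ (hg φ)

lemma frb_mul {F : Type} [Field F] [NumberField F] [Algebra K F] {u : HeightOneSpectrum (𝓞 F)}
    {s t : F ≃ₐ[K] F} (hs : T9h30.BT.Frb u s) (ht : t ∈ T9h30.BT.In (K := K) u) :
    T9h30.BT.Frb u (t * s) := by
  intro x
  have h1 := T9h30.BT.mem_In.1 ht (s • x)
  have h2 := u.asIdeal.add_mem h1 (hs x)
  rw [sub_add_sub_cancel, ← mul_smul] at h2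
  exact h2

end proof

/-- **The rank conjecture over abelian extensions of odd prime power degree.** Let `K` be an imaginary quadratic field
of class number one, let `E : y² = x³ + a x + b` be an elliptic curve over `K` with the newform `f`, and let `p` be an
odd prime; suppose that `E(K)` has no element of order `p`, that the `p`-Selmer group of `E/K` is trivial, and that the
central value is prime to `p`.
(1) Let `m` be prime to `p`, such that all places `v ∣ m` of `K` are admissible, and let `F` be a subfield of `K(ζ_m)` of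
`p`-power degree over `K` in which the places `v ∣ 2p(4a³ + 27b²)` split completely. Then `L(E/F, s)` has a meromorphic
continuation to `ℂ`, `ord_{s = 1} L(E/F, s) = rank E(F) = 0`, and `E(F)` is finite of an order prime to `p`.
(2) If for some prime number `l₀` all places `v ∣ l₀` of `K` are admissible, of norm `1` modulo `p`, then for
every `N` there is a set `P` of prime numbers `l ≡ 1` modulo `p ^ N`, of positive density, such that the conclusion of (1)
holds for all subfields `F` of `K(ζ_m)` with `t ^ (p ^ N) = 1` for all `t ∈ Gal(F/K)`, for the products `m` of different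
elements of `P`.
(3) The same is true for the abelian extensions `F/K` of `p`-power degree which are the class fields of characters of `K`
whose conductors are products of different admissible places, if the places `v ∣ 2p(4a³ + 27b²)` split completely
in `F`. -/
theorem result (K : Type) [Field K] [NumberField K] [IsPrincipalIdealRing (𝓞 K)] (σ : K →+* ℂ)
    (δ : K) (hK : IsFieldData K σ δ) (a b : 𝓞 K) (hΔ : 4 * a ^ 3 + 27 * b ^ 2 ≠ 0) (n : 𝓞 K)
    (c : Ideal (𝓞 K) → ℂ) (hf : IsNewform σ δ n c) (hE : IsNewformOf (curve (a : K) (b : K)) n c)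
    (p : ℕ) (hp : p.Prime) (hp2 : 2 < p) (hT : NoTorsion a b p) (hS : TrivialSelmer a b p)
    (hval : UnitCentralValue σ δ n c p) :
    (∀ m : ℕ, m ≠ 0 → Nat.Coprime p m →
      (∀ v : HeightOneSpectrum (𝓞 K), (m : 𝓞 K) ∈ v.asIdeal → Admissible a b p v) →
      ∀ (F : Type) [Field F] [DecidableEq F] [NumberField F] [Algebra K F],
        Nonempty (F →ₐ[K] CyclotomicField m K) → (∃ k : ℕ, Module.finrank K F = p ^ k) →
        Splits F a b p → RankZero p ((curve (a : K) (b : K)).baseChange F)) ∧
    ((∃ l₀ : ℕ, l₀.Prime ∧ ∀ v : HeightOneSpectrum (𝓞 K), (l₀ : 𝓞 K) ∈ v.asIdeal →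
        Ideal.absNorm v.asIdeal % p = 1 ∧ Admissible a b p v) →
      ∀ N : ℕ, ∃ P : Set ℕ, PositiveDensity P ∧ (∀ l ∈ P, l.Prime ∧ l ≡ 1 [MOD p ^ N]) ∧
        ∀ S : Finset ℕ, (∀ l ∈ S, l ∈ P) →
          ∀ (F : Type) [Field F] [DecidableEq F] [NumberField F] [Algebra K F],
            Nonempty (F →ₐ[K] CyclotomicField (∏ l ∈ S, l) K) →
            (∀ t : F ≃ₐ[K] F, t ^ p ^ N = 1) →
            RankZero p ((curve (a : K) (b : K)).baseChange F)) ∧
    ∀ (F : Type) [Field F] [DecidableEq F] [NumberField F] [Algebra K F],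
      IsClassField F a b p → Splits F a b p →
        RankZero p ((curve (a : K) (b : K)).baseChange F) := by
  have hD : T9h30.PG.Dat σ δ n c a b p := by
    obtain ⟨z, hz, hz'⟩ := hval
    obtain ⟨ω, hω', hω⟩ := hf.cyclic
    refine ⟨⟨hK.quadratic, hK.imaginary, inferInstance, hK.different⟩,
      ⟨hf.level, hf.zero, hf.one, hf.bound, hf.good, hf.bad, hf.invariant, hf.fricke⟩, hΔ, nf_of hE,
      hp, hp2, ⟨z, ω, hz, hω, hω', hz'⟩, ?_, selT hS⟩
    intro inst T hT0
    have e : inst = fun a b => Classical.propDecidable (a = b) := Subsingleton.elim _ _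
    subst e
    exact hT T hT0
  refine ⟨fun m hm hpm hadm F _ _ _ _ hFC hk hsp => ?_, fun ⟨l₀, hl₀, h₀⟩ N => ?_,
    fun F _ _ _ _ hF hsp => ?_⟩
  · have hm' : NeZero m := ⟨hm⟩
    obtain ⟨k, hk⟩ := hk
    obtain ⟨e⟩ := hFC
    let _ : Algebra F (CyclotomicField m K) := e.toRingHom.toAlgebra
    have ht : IsScalarTower K F (CyclotomicField m K) :=
      IsScalarTower.of_algebraMap_eq fun x => (e.commutes x).symm
    have hab : IsAbelianGalois K (CyclotomicField m K) :=
      IsCyclotomicExtension.isAbelianGalois {m} K (CyclotomicField m K)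
    have hab2 : IsAbelianGalois K F := IsAbelianGalois.tower_bot K F (CyclotomicField m K)
    have h1 := hD.cyc (F := F) hpm hadm (CyclotomicField m K) hk hsp
    rw [bc_eq] at h1
    exact rankZero_of h1
  · obtain ⟨ω, t₀, n₀, hB⟩ := T9h30.BT.exists_bs hD.iq
    obtain ⟨P, hd, h1, h2, h3⟩ := T9h30.PG.exists_set hB hΔ hp hp2 hl₀ h₀ N
    refine ⟨P, hd, fun l hl => ⟨(h1 l hl).1, ?_⟩, fun S hS F _ _ _ _ hFC hexp => ?_⟩
    · have h4 := (h1 l hl).2
      rw [← Nat.cast_one, ZMod.natCast_eq_natCast_iff] at h4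
      exact h4
    · have h4 := hD.fam (fun l hl => (h1 l hl).1) h2 h3 S hS F hFC hexp
      rw [bc_eq] at h4
      exact rankZero_of h4
  · obtain ⟨k, hk⟩ := hF.degree
    have hG := hF.galois
    have hrec : ∀ ψ : (F ≃ₐ[K] F) →* ℂˣ, ∃ (T : Finset (HeightOneSpectrum (𝓞 K))) (χ : 𝓞 K → ℂ),
        IsCharacter p T χ ∧ (∀ v ∈ T, Admissible a b p v) ∧
        ∀ u : HeightOneSpectrum (𝓞 F), T9h30.BT.lo (K := K) u ∉ T → ∀ t : F ≃ₐ[K] F,
          T9h30.BT.Frb u t → ((ψ t : ℂˣ) : ℂ) = χ (K4H55.BI.gen (T9h30.BT.lo (K := K) u)) := by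
      intro ψ
      obtain ⟨T, χ, h1, h2, h3⟩ := hF.reciprocity ((Units.coeHom ℂ).comp ψ)
      exact ⟨T, χ, h1, h2, fun u hu t ht => h3 _ hu ⟨u, rfl⟩ t ht⟩
    choose T χ hχ hT hlaw using hrec
    have hχ' : ∀ ψ, T9h30.PG.CHp p (T ψ) (χ ψ) := fun ψ =>
      ⟨(hχ ψ).one, (hχ ψ).mul, (hχ ψ).zero, (hχ ψ).periodic, (hχ ψ).units, (hχ ψ).primitive,
        (hχ ψ).order⟩
    have hR : T9h30.BT.Rec T χ := by
      refine ⟨fun ψ x => ?_, hlaw⟩
      by_cases h0 : χ ψ x = 0
      · exact Or.inr h0
      · obtain ⟨k, hk⟩ := (hχ ψ).order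
        exact Or.inl (Complex.norm_eq_one_of_pow_eq_one (hk x h0) (pow_ne_zero _ hp.ne_zero))
    have h1 := hD.one hk hsp (fun u _ hu t ht => ?_) hF.abelian hR fun ψ => hD.value (hχ' ψ) (hT ψ)
    · rw [bc_eq] at h1
      exact rankZero_of h1
    · refine exists_dual hF.abelian fun ψ => ?_
      have hu' : T9h30.BT.lo (K := K) u ∉ T ψ := fun h => hu (hT ψ _ h)
      obtain ⟨s, hs⟩ := T9h30.BT.exists_frb (K := K) u
      have h2 := (hlaw ψ u hu' _ (frb_mul hs ht)).trans (hlaw ψ u hu' _ hs).symm
      have h3 := Units.ext h2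
      rwa [map_mul, mul_eq_right] at h3

end Pool.Agent.Results.MP_cd906c_nt.AbelianOddPrimeExtensions
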