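import Pool.Agent.T9h30.BT.Base
import Pool.Agent.T9h30.BT.Inf
import Pool.Agent.T9h30.BT.Tow
import Pool.Agent.T9h30.BT.Adm2

/-!
# The rank conjecture over towers of abelian extensions of 2-power degree, for several curves at once

`K` is an imaginary quadratic field of class number one, and `E₁, …, E_m` are elliptic curves over `K` (they need
not be base changes of curves over `ℚ`), with Bianchi newforms `f_i` of weight two over `K`. Suppose that
`L(E_i/K, 1) ≠ 0`, `E_i(K)[2] = 0` and `Sel₂(E_i/K) = 0` for all `i`.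

An admissible place is a place `v ∤ 2(4a_i³ + 27b_i²)` of `K` such that `x³ + a_i x + b_i` has no root modulo `v`,
for all `i`. Fix `N` and let `H` be any group of characters of `K` of order dividing `2^N` whose conductors are products
of different admissible places. For a subgroup `G` of `H` let `K(G)` be its class field, the composite of the class
fields of the elements of `G`; it is finite over `K` if and only if `G` is finite. Call `G` regular if for all finite
extensions `F/K` inside `K(G)` in which the places dividing `2(4a_i³ + 27b_i²)` split completely, and for all `i`, the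
conjecture of Birch and Swinnerton-Dyer on the rank holds for `E_i/F`, both sides being zero: `L(E_i/F, s)` has a
meromorphic continuation to `ℂ`, analytic and not zero at `s = 1`, and `E_i(F)` is finite (of odd order).

Theorem.
(1) For each `r` there is a bound `V`, which depends only on the curves, on `N` and on `r`, such that for every `H` there is
a set of at most `V` correcting tuples in `H^r` with the following property: for every `x ∈ H^r` there is a
correcting tuple `k` such that the group generated by the components of `x k` is regular. If `H` is finite, the group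
generated by the components of `x` is regular for at least `|H|^r / V` of the tuples `x ∈ H^r`.
(2) Every infinite `H` has an infinite regular subgroup `G`: so `K(G)/K` is an infinite abelian extension, and the
conjecture holds for all of the curves over all of the finite layers `F` as above.
(3) If there is one admissible place, or if there is only one curve, there is an infinite set `A` of squarefree elements of `𝓞`,
different modulo squares and a group modulo squares, such that for all finite extensions `F` of `K` generated by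
square roots of elements of `A`, that is, for all the finite layers of the infinite multiquadratic extension `K(√A)/K`, and
for all `i`, the conjecture holds for `E_i/F`, both sides being zero.

That `F` is inside `K(G)` is described by the law of reciprocity for the characters of `Gal(F/K)` (Artin), which is not in
Mathlib; for the multiquadratic `F/K` it is described by Kummer theory: if `α ∈ 𝓞` is squarefree and a square
in `F`, the product of the Legendre symbols of the places `v ∣ α` is in `G`. There the law of reciprocity is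
proved, not assumed. Part (3) needs no such hypothesis at all.

The proof. Let `β_i(c)` be the algebraic part of `L(f_i ⊗ c, 1)`, `c ∈ H`: a sum of values at cusps of the primitive of the
differential of `f_i` with the weights `c(x)`. It is in a finitely generated module `W` over a noetherian ring `R` of
algebraic integers. Let `P` be a prime of `R` above `2`. As `c ↦ c(x)` is a homomorphism for each `x` and
`c(x) ≡ 1` modulo `P`, the sums over a fixed modulus have the differences `∏(1 - [h])` of any order `k` in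
`P^k W`; the change of the modulus multiplies by `a_v - c(v) - c(v)⁻¹ ≡ a_v - 2`, a unit modulo `P`. By the
theorem of Krull on the intersection of the `P^k W`, starting from `β_i(1) ≠ 0`, one finds the corrections. The
products of `β_i` over all elements of the group generated by a tuple and over all `i` have the same properties.
The passage from the characters to `L(E_i/F, s)` and the descent are as in `AbelianTwoExtensions`, and so is
the law of quadratic reciprocity in `K`. For (3), Chebotarev's theorem over `K` gives infinitely many admissible places,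
and `H` is the group of the quadratic characters of the products of an even number of generators of places in a suitable class
modulo `8 ∏ (4a_i³ + 27b_i²)`.
-/

set_option autoImplicit false

open NumberField IsDedekindDomain Filter Topology
open scoped TensorProduct

namespace Pool.Agent.Results.MP_cd906c_nt.AbelianTowersManyCurves

/-- `K` is an imaginary quadratic field, `σ` is one of its two embeddings in `ℂ`, and `δ` generates the
different of `K`: an `x ∈ K` is in `𝓞` if and only if `Tr(x y / δ) ∈ ℤ` for all `y ∈ 𝓞`. -/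
structure IsFieldData (K : Type) [Field K] [NumberField K] (σ : K →+* ℂ) (δ : K) : Prop where
  quadratic : Module.finrank ℚ K = 2
  imaginary : ∃ x, (starRingEnd ℂ) (σ x) ≠ σ x
  different : ∀ x : K, (∃ a : 𝓞 K, (a : K) = x) ↔
    ∀ y : 𝓞 K, ∃ m : ℤ, Algebra.trace ℚ K (x * y / δ) = m

/-- `h(y) = ∫_0^∞ exp(-1/v - y v) dv = 2 y^(-1/2) K₁(2 √y)`, with the Bessel function `K₁`. -/
noncomputable def bessel (y : ℝ) : ℝ := ∫ v in Set.Ioi (0 : ℝ), Real.exp (-(1 / v) - y * v)

/-- The additive character `e(z) = exp(2πi (z/δ + conj (z/δ)))` of `ℂ`, trivial on `𝓞`. -/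
noncomputable def addChar (δ z : ℂ) : ℂ :=
  Complex.exp (2 * Real.pi * Complex.I * (z / δ + (starRingEnd ℂ) (z / δ)))

/-- The denominator `|c z + d|² + |c|² t²` of the action of the matrix `(a, b; c, d)` on the hyperbolic
space `{(z, t) : z ∈ ℂ, t > 0}`. -/
noncomputable def den (c d z : ℂ) (t : ℝ) : ℝ := ‖c * z + d‖ ^ 2 + ‖c‖ ^ 2 * t ^ 2

/-- The first coordinate `((a z + b) conj (c z + d) + a conj(c) t²) / (|c z + d|² + |c|² t²)` of the image
of `(z, t)` under the matrix `(a, b; c, d)`. -/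
noncomputable def actZ (a b c d z : ℂ) (t : ℝ) : ℂ :=
  ((a * z + b) * (starRingEnd ℂ) (c * z + d) + a * (starRingEnd ℂ) c * (t : ℂ) ^ 2) /
    (den c d z t : ℂ)

/-- The second coordinate, for a matrix of determinant one; in general it is `|ad - bc|` times this. -/
noncomputable def actT (c d z : ℂ) (t : ℝ) : ℝ := t / den c d z t

section field
variable {K : Type} [Field K] [NumberField K]

/-- The function `Φ(z, t) = ∑_{x ∈ 𝓞} c((x)) t² h(N(x) (2πt/|δ|)²) e(x z)
  = (|δ|/π) ∑_{x ≠ 0} (c((x))/|x|) t K₁(4π|x|t/|δ|) e(x z)` on the hyperbolic space, with the coefficients `c`.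
Up to a constant factor it is the primitive, zero at the cusp `∞`, of the harmonic differential of the
form of weight two with the Fourier coefficients `c`: its derivative by `t` is
`-4 ∑_{x ≠ 0} c((x)) t K₀(4π|x|t/|δ|) e(x z)`. -/
noncomputable def primitive (σ : K →+* ℂ) (δ : K) (c : Ideal (𝓞 K) → ℂ) (z : ℂ) (t : ℝ) : ℂ :=
  ∑' x : 𝓞 K, c (Ideal.span {x}) * ((t ^ 2 * bessel (Ideal.absNorm (Ideal.span {x}) *
    (2 * Real.pi * t / ‖σ δ‖) ^ 2) : ℝ) : ℂ) * addChar (σ δ) (σ x * z)

/-- The numbers `c(I)` are the Hecke eigenvalues of a Bianchi newform `f` of weight two, level `(n)` and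
trivial character over `K`: they satisfy `c(𝓞) = 1`, the (trivial) bound `c(I) = O(N(I))`
and the Hecke relations `c(v I) = c(v) c(I)` for `v ∤ I`, `c(v² I) = c(v) c(v I) - N(v) c(I)` for the primes `v ∤ n`, and
`c(v I) = c(v) c(I)` for `v ∣ n`; the differential `dΦ` of the function `Φ` with the coefficients `c` is
invariant under `Γ₀(n)`, that is, `Φ(γ P) - Φ(P)` is a constant for every `γ ∈ Γ₀(n)`; and `dΦ` is an
eigenform, with the eigenvalue `±1`, of the Fricke involution `W = (0, -1; n, 0)`. -/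
structure IsNewform (σ : K →+* ℂ) (δ : K) (n : 𝓞 K) (c : Ideal (𝓞 K) → ℂ) : Prop where
  level : n ≠ 0
  zero : c ⊥ = 0
  one : c ⊤ = 1
  bound : ∃ C : ℝ, ∀ I, ‖c I‖ ≤ C * Ideal.absNorm I
  good : ∀ v : HeightOneSpectrum (𝓞 K), n ∉ v.asIdeal → ∀ I,
    (¬ v.asIdeal ∣ I → c (v.asIdeal * I) = c v.asIdeal * c I) ∧
    c (v.asIdeal * (v.asIdeal * I)) = c v.asIdeal * c (v.asIdeal * I) -
      Ideal.absNorm v.asIdeal * c I
  bad : ∀ v : HeightOneSpectrum (𝓞 K), n ∈ v.asIdeal → ∀ I,
    c (v.asIdeal * I) = c v.asIdeal * c I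
  invariant : ∃ κ : Matrix.SpecialLinearGroup (Fin 2) (𝓞 K) → ℂ,
    ∀ γ : Matrix.SpecialLinearGroup (Fin 2) (𝓞 K), n ∣ γ.1 1 0 → ∀ (z : ℂ) (t : ℝ), 0 < t →
      primitive σ δ c (actZ (σ (γ.1 0 0)) (σ (γ.1 0 1)) (σ (γ.1 1 0)) (σ (γ.1 1 1)) z t)
        (actT (σ (γ.1 1 0)) (σ (γ.1 1 1)) z t) = primitive σ δ c z t + κ γ
  fricke : ∃ w κ : ℂ, w * w = 1 ∧ ∀ (z : ℂ) (t : ℝ), 0 < t →
    primitive σ δ c (actZ 0 (-1) (σ n) 0 z t) (‖σ n‖ * actT (σ n) 0 z t) =
      -w * primitive σ δ c z t + κ

open Classical in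
/-- `f` is the newform of the curve `E`, that is, `L(E/K, s) = L(f, s)`, Euler factor by Euler factor: at every
finite place `v` of `K` the polynomial of the local factor of `E` (that of Mathlib) is
`1 - c(v) X + N(v) X²` if `v ∤ n`, and `1 - c(v) X` if `v ∣ n`. -/
def IsNewformOf (E : WeierstrassCurve K) (n : 𝓞 K) (c : Ideal (𝓞 K) → ℂ) : Prop :=
  ∀ v : HeightOneSpectrum (𝓞 K),
    ((E.baseChange (v.adicCompletion K)).localPolynomial (v.adicCompletionIntegers K)).map
      (Int.castRingHom ℂ) = 1 - Polynomial.C (c v.asIdeal) * Polynomial.X +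
        Polynomial.C (if n ∈ v.asIdeal then 0 else (Ideal.absNorm v.asIdeal : ℂ)) * Polynomial.X ^ 2

section selmer
variable {L : Type} [Field L] [NumberField L] [Algebra K L]

/-- `L = K(θ)` is the cubic field of `E`: `θ³ + a θ + b = 0`, and every element of `L` is `u + v θ + w θ²` for
unique `u, v, w ∈ K`. So `x³ + a x + b` is irreducible over `K`, that is, `E(K)[2] = 0`. -/
structure IsCubicField (a b : 𝓞 K) (θ : L) : Prop where
  root : θ ^ 3 + algebraMap K L a * θ + algebraMap K L b = 0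
  basis : ∀ β : L, ∃! t : K × K × K,
    β = algebraMap K L t.1 + algebraMap K L t.2.1 * θ + algebraMap K L t.2.2 * θ ^ 2

/-- The class of `α` in `(K_v ⊗ L)^×` modulo squares is in the group generated by the images of the points
`(x, y)`, `y ≠ 0`, of `E(K_v)` under the Kummer map `(x, y) ↦ x - θ`. (This group is the image of `E(K_v)/2E(K_v)`, as
the map is a homomorphism and all classes contain points with `y ≠ 0`.) -/
def LocalCondition (a b : 𝓞 K) (θ : L) (v : HeightOneSpectrum (𝓞 K)) (α : L) : Prop :=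
  ∃ s : List (v.adicCompletion K),
    (∀ x ∈ s, ∃ y : v.adicCompletion K, y ≠ 0 ∧
      y ^ 2 = x ^ 3 + algebraMap K (v.adicCompletion K) a * x +
        algebraMap K (v.adicCompletion K) b) ∧
    IsSquare (((1 : v.adicCompletion K) ⊗ₜ[K] α) *
      (s.map fun x => x ⊗ₜ[K] (1 : L) - 1 ⊗ₜ[K] θ).prod)

/-- The `2`-Selmer group of `E/K` is trivial. As `E(K)[2] = 0` and `K` has no real places, it is the group of the
classes of `α ∈ L^×` modulo squares such that the norm of `α` is a square, `w(α)` is even for all places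
`w ∤ 2(4a³ + 27b²)` of `L`, and `α` satisfies the local conditions at the places `v ∣ 2(4a³ + 27b²)` of `K`. -/
def TrivialSelmer (a b : 𝓞 K) (θ : L) : Prop :=
  ∀ α : L, α ≠ 0 → IsSquare (Algebra.norm K α) →
    (∀ w : HeightOneSpectrum (𝓞 L), algebraMap (𝓞 K) (𝓞 L) (2 * (4 * a ^ 3 + 27 * b ^ 2)) ∉
      w.asIdeal → IsSquare (w.valuation L α)) →
    (∀ v : HeightOneSpectrum (𝓞 K), 2 * (4 * a ^ 3 + 27 * b ^ 2) ∈ v.asIdeal →
      LocalCondition a b θ v α) → IsSquare α

end selmer

/-- The admissible places: `v ∤ 2(4a³ + 27b²)`, and `x³ + a x + b` has no root modulo `v`. -/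
def Admissible (a b : 𝓞 K) (v : HeightOneSpectrum (𝓞 K)) : Prop :=
  2 * (4 * a ^ 3 + 27 * b ^ 2) ∉ v.asIdeal ∧ ∀ x : 𝓞 K, x ^ 3 + a * x + b ∉ v.asIdeal

/-- A family of characters of the groups `(𝓞/v)^×`, for the finite places `v` of `K` (as functions on `𝓞/v`, zero at
zero). The families with finitely many `c v ≠ 1` are the primitive characters of `(𝓞/𝔣)^×` for the
products `𝔣` of different places, the conductor `𝔣` of `c` being the product of the `v` with `c v ≠ 1`. As `K` has class number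
one, the characters of `K` with such a conductor are the families with `value c u = 1` for the units `u`. -/
abbrev Family (K : Type) [Field K] [NumberField K] : Type :=
  (v : HeightOneSpectrum (𝓞 K)) → MulChar (𝓞 K ⧸ v.asIdeal) ℂ

open Classical in
/-- The value `∏ c_v(x mod v)`, the product over the `v` with `c v ≠ 1`, of the character at `x ∈ 𝓞`. It is zero if `x` is not
prime to the conductor. -/
noncomputable def value (c : Family K) (x : 𝓞 K) : ℂ :=
  ∏ᶠ v : HeightOneSpectrum (𝓞 K), if c v = 1 then 1 else c v (Ideal.Quotient.mk v.asIdeal x)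

section curves
variable {J : Type}

/-- `H` is a group of characters of `K`, of orders dividing `2^N`, whose conductors are products of different places which are
admissible for all of the curves `y² = x³ + a_i x + b_i`. -/
structure IsCharacterGroup (a b : J → 𝓞 K) (N : ℕ) (H : Subgroup (Family K)) : Prop where
  order : ∀ c ∈ H, c ^ 2 ^ N = 1
  finite : ∀ c ∈ H, {v | c v ≠ 1}.Finite
  admissible : ∀ c ∈ H, ∀ v, c v ≠ 1 → ∀ i, Admissible (a i) (b i) v
  units : ∀ c ∈ H, ∀ u, IsUnit u → value c u = 1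

end curves

section extension

variable (F : Type) [Field F] [NumberField F] [Algebra K F]

/-- The places `u` of `F` above `v`. -/
def Above (v : HeightOneSpectrum (𝓞 K)) : Type :=
  {u : HeightOneSpectrum (𝓞 F) // u.asIdeal.comap (algebraMap (𝓞 K) (𝓞 F)) = v.asIdeal}

/-- `F/K` is a finite Galois extension of `2`-power degree, unramified outside of the admissible places of `K`, and the
places `v ∣ 2(4a³ + 27b²)` split completely in `F` (there is an embedding of `F` in `K_v`). -/
structure IsTwoExtension (a b : 𝓞 K) : Prop where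
  galois : IsGalois K F
  degree : ∃ k : ℕ, Module.finrank K F = 2 ^ k
  split : ∀ v : HeightOneSpectrum (𝓞 K), 2 * (4 * a ^ 3 + 27 * b ^ 2) ∈ v.asIdeal →
    Nonempty (F →ₐ[K] v.adicCompletion K)
  unramified : ∀ v : HeightOneSpectrum (𝓞 K), 2 * (4 * a ^ 3 + 27 * b ^ 2) ∉ v.asIdeal →
    ¬ Admissible a b v → ∀ u : Above F v, ∀ x : K,
      u.1.valuation F (algebraMap K F x) = v.valuation K x

/-- `F` is contained in the class field of the group `G` of characters of `K`: `Gal(F/K)` is abelian, and each of its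
characters `ψ` belongs to some `c ∈ G` by the law of reciprocity: `ψ(t) = c(v)` for all places `v` of `K` which do not divide the
conductor of `c` and all Frobenius automorphisms `t ∈ Gal(F/K)` at places of `F` above `v`. -/
structure IsInClassField [IsPrincipalIdealRing (𝓞 K)] (G : Subgroup (Family K)) : Prop where
  abelian : ∀ s t : F ≃ₐ[K] F, s * t = t * s
  reciprocity : ∀ ψ : (F ≃ₐ[K] F) →* ℂ, ∃ c ∈ G,
    ∀ v : HeightOneSpectrum (𝓞 K), c v = 1 → ∀ (u : Above F v) (t : F ≃ₐ[K] F),
      (∀ x : 𝓞 F, t • x - x ^ Ideal.absNorm v.asIdeal ∈ u.1.asIdeal) →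
      ψ t = value c (Submodule.IsPrincipal.generator v.asIdeal)

/-- `c` is the quadratic character of the squarefree `α ∈ 𝓞`: `c v = 1` for `v ∤ α`, and `c v` is the Legendre symbol
modulo `v` for `v ∣ α`. -/
structure IsQuadraticCharacter (α : 𝓞 K) (c : Family K) : Prop where
  one : ∀ v : HeightOneSpectrum (𝓞 K), α ∉ v.asIdeal → c v = 1
  square : ∀ v : HeightOneSpectrum (𝓞 K), α ∈ v.asIdeal → ∀ x : 𝓞 K, x ∉ v.asIdeal →
    (∃ y, x - y ^ 2 ∈ v.asIdeal) → c v (Ideal.Quotient.mk v.asIdeal x) = 1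
  nonsquare : ∀ v : HeightOneSpectrum (𝓞 K), α ∈ v.asIdeal → ∀ x : 𝓞 K,
    (¬ ∃ y, x - y ^ 2 ∈ v.asIdeal) → c v (Ideal.Quotient.mk v.asIdeal x) = -1

/-- `F/K` is multiquadratic and contained in the class field of the group `G` of characters of `K`, in the sense of
Kummer theory: if the squarefree `α ∈ 𝓞` is a square in `F`, its quadratic character is in `G`. -/
structure IsMultiquadraticIn (G : Subgroup (Family K)) : Prop where
  exponent : ∀ t : F ≃ₐ[K] F, t * t = 1
  kummer : ∀ α : 𝓞 K, α ≠ 0 → (∀ v : HeightOneSpectrum (𝓞 K), α ∉ v.asIdeal ^ 2) →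
    (∃ β : F, β ^ 2 = algebraMap K F (α : K)) → ∃ c ∈ G, IsQuadraticCharacter α c

end extension

end field

/-- The curve `y² = x³ + a x + b`. -/
def curve {R : Type} [CommRing R] (a b : R) : WeierstrassCurve R := ⟨0, 0, 0, a, b⟩

section conj

variable {F : Type} [Field F] [NumberField F]

/-- `H` is equal to `L(E/F, s)` for `Re s > 2` and it is meromorphic at the real points of `[1, 2]` -/
def Continues (E : WeierstrassCurve F) (H : ℂ → ℂ) : Prop :=
  (∀ x : ℝ, 1 ≤ x → x ≤ 2 → MeromorphicAt H (x : ℂ)) ∧ ∀ s : ℂ, 2 < s.re → H s = E.LSeries s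

/-- `L(E/F, s)` has a continuation which is analytic and not zero at `s = 1` -/
def NonzeroCentralValue (E : WeierstrassCurve F) : Prop :=
  ∃ H : ℂ → ℂ, Continues E H ∧ AnalyticAt ℂ H 1 ∧ H 1 ≠ 0

/-- the rank of the group `E(F)` -/
noncomputable def rank (E : WeierstrassCurve F) [DecidableEq F] : ℕ :=
  Module.finrank ℤ E.toAffine.Point

/-- The rank form of the conjecture of Birch and Swinnerton-Dyer for `E/F`, with both sides zero: `L(E/F, s)` has a
meromorphic continuation to `ℂ`, and every continuation has the order `0` at `s = 1`, which is the rank of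
`E(F)`; and `E(F)` is finite, of odd order. -/
structure RankZero (E : WeierstrassCurve F) [DecidableEq F] : Prop where
  exists_continuation : ∃ H : ℂ → ℂ, MeromorphicOn H Set.univ ∧ AnalyticAt ℂ H 1 ∧
    Continues E H ∧ analyticOrderAt H 1 = (rank E : ℕ∞)
  order : ∀ H : ℂ → ℂ, Continues E H → meromorphicOrderAt H 1 = ((rank E : ℤ) : WithTop ℤ) ∧
    (AnalyticAt ℂ H 1 → analyticOrderAt H 1 = (rank E : ℕ∞))
  rank_zero : rank E = 0
  finite : Finite E.toAffine.Point
  odd : Odd (Nat.card E.toAffine.Point)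

end conj

/-- The group `G` of characters is regular for the curves `E_i : y² = x³ + a_i x + b_i`: for all `F` contained in the class
field of `G` (in the sense of reciprocity or, for multiquadratic `F/K`, of Kummer theory), of `2`-power degree over `K`,
unramified outside of the admissible places, in which the places `v ∣ 2(4a_i³ + 27b_i²)` split completely, the rank
conjecture holds for all `E_i/F`, both sides being zero. -/
def Regular {K : Type} [Field K] [NumberField K] [IsPrincipalIdealRing (𝓞 K)] {J : Type}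
    (a b : J → 𝓞 K) (G : Subgroup (Family K)) : Prop :=
  ∀ (F : Type) [Field F] [DecidableEq F] [NumberField F] [Algebra K F],
    (∀ i, IsTwoExtension F (a i) (b i)) → (IsInClassField F G ∨ IsMultiquadraticIn F G) →
    ∀ i, RankZero ((curve (a i : K) (b i : K)).baseChange F)

lemma coef_eq {a e a' e' : ℂ} (h : (1 - Polynomial.C a * Polynomial.X +
    Polynomial.C e * Polynomial.X ^ 2 : Polynomial ℂ) = 1 - Polynomial.C a' * Polynomial.X +
      Polynomial.C e' * Polynomial.X ^ 2) : a = a' ∧ e = e' := by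
  have h1 := congrArg (Polynomial.eval 1) h
  have h2 := congrArg (Polynomial.eval (-1)) h
  simp only [Polynomial.eval_add, Polynomial.eval_sub, Polynomial.eval_one, Polynomial.eval_mul,
    Polynomial.eval_C, Polynomial.eval_X, Polynomial.eval_pow] at h1 h2
  constructor
  · linear_combination (1 / 2 : ℂ) * h2 - (1 / 2 : ℂ) * h1
  · linear_combination (1 / 2 : ℂ) * h1 + (1 / 2 : ℂ) * h2

section proof

variable {K : Type} [Field K] [NumberField K]

lemma value_eq {c : Family K} (h : {v | c v ≠ 1}.Finite) (x : 𝓞 K) :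
    value c x = T9h30.BT.X (T9h30.BT.sp c) c x := by
  classical
  unfold value T9h30.BT.X
  rw [finprod_eq_prod_of_mulSupport_subset (s := T9h30.BT.sp c)]
  · refine Finset.prod_congr rfl fun v hv => ?_
    rw [if_neg ((T9h30.BT.mem_sp h v).1 hv)]
  · intro v hv
    rw [Function.mem_mulSupport] at hv
    rw [Finset.mem_coe, T9h30.BT.mem_sp h]
    intro h1
    exact hv (if_pos h1)

lemma nf_of {a b n : 𝓞 K} {c : Ideal (𝓞 K) → ℂ} (hE : IsNewformOf (curve (a : K) (b : K)) n c) :
    T9h30.BT.IsNF (T9h30.BT.cv (a : K) (b : K)) n c := by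
  intro v
  have h1 := hE v
  have h2 := W189.NF.localPolynomial_eq (v.adicCompletionIntegers K)
    ((curve (a : K) (b : K)).baseChange (v.adicCompletion K))
  rw [h2] at h1
  have h3 : W189.NF.aLoc (v.adicCompletionIntegers K)
      ((curve (a : K) (b : K)).baseChange (v.adicCompletion K)) =
      W189.NF.aV (T9h30.BT.cv (a : K) (b : K)) v := rfl
  have h4 : W189.NF.eLoc (v.adicCompletionIntegers K)
      ((curve (a : K) (b : K)).baseChange (v.adicCompletion K)) =
      W189.NF.eV (T9h30.BT.cv (a : K) (b : K)) v := rfl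
  rw [h3, h4, Polynomial.map_add, Polynomial.map_sub, Polynomial.map_one, Polynomial.map_mul,
    Polynomial.map_C, Polynomial.map_X, Polynomial.map_mul, Polynomial.map_C, Polynomial.map_pow,
    Polynomial.map_X] at h1
  obtain ⟨c1, c2⟩ := coef_eq h1
  rw [eq_intCast] at c1 c2
  refine ⟨c1.symm, fun hn => ?_, fun hn => ?_⟩
  · rw [if_pos hn] at c2
    exact_mod_cast c2
  · rw [if_neg hn] at c2
    exact_mod_cast c2

lemma adm_of {a b n : 𝓞 K} {c : Ideal (𝓞 K) → ℂ}
    (hNF : T9h30.BT.IsNF (T9h30.BT.cv (a : K) (b : K)) n c) (v : HeightOneSpectrum (𝓞 K))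
    (hv : Admissible a b v) :
    (2 : 𝓞 K) ∉ v.asIdeal ∧ n ∉ v.asIdeal ∧ ∃ m : ℤ, c v.asIdeal = m ∧ m % 2 = 1 := by
  have hbad : n ∉ v.asIdeal ∧
      c v.asIdeal = (Ideal.absNorm v.asIdeal : ℤ) - T9h30.BT.pp a b v := by
    obtain ⟨h1, h2⟩ := T9h30.BT.loc_int a b v hv.1
    obtain ⟨g1, g2, g3⟩ := hNF v
    refine ⟨fun hn => ?_, ?_⟩
    · have h3 := g2 hn
      rw [h2] at h3
      have := T9h30.BT.one_lt_nrm v
      omega
    · rw [g1, h1]
      push_cast
      rfl
  have h2 : (2 : 𝓞 K) ∉ v.asIdeal := fun h2 => hv.1 (v.asIdeal.mul_mem_right _ h2)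
  refine ⟨h2, hbad.1, (Ideal.absNorm v.asIdeal : ℤ) - T9h30.BT.pp a b v, ?_, ?_⟩
  · rw [hbad.2]
    push_cast
    ring
  · obtain ⟨k, hk⟩ := K4H55.BD.pv_even (a := a) (b := b) h2 hv.2
    have hk' : T9h30.BT.pp a b v = 2 * k := hk
    have h6 := K4H55.BM.norm_odd h2
    rw [Nat.odd_iff] at h6
    omega

omit [NumberField K] in
lemma cub_of {a b : 𝓞 K} {L : Type} [Field L] [NumberField L] [Algebra K L] {θ : L}
    (hθ : IsCubicField a b θ) : K4H55.BD.Cub K θ := by
  refine ⟨fun p q r h0 => ?_, fun β => ?_⟩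
  · obtain ⟨t, ht, hu⟩ := hθ.basis 0
    have h1 := hu (p, q, r) h0.symm
    have h2 := hu (0, 0, 0) (by simp)
    have h3 := h1.trans h2.symm
    simp only [Prod.mk.injEq] at h3
    exact h3
  · obtain ⟨t, ht, -⟩ := hθ.basis β
    exact ⟨t.1, t.2.1, t.2.2, ht⟩

/-- the quadratic character of `α` is unique -/
lemma eq_of_qc {α : 𝓞 K} {c : Family K} (h : IsQuadraticCharacter α c) : c = T9h30.BT.qf α := by
  classical
  refine T9h30.BT.eq_qf h.one fun v hv x hx => ?_
  split_ifs with h1
  · exact h.square v hv x hx h1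
  · exact h.nonsquare v hv x h1

lemma qc_qf (α : 𝓞 K) : IsQuadraticCharacter α (T9h30.BT.qf α) := by
  classical
  have key : ∀ v : HeightOneSpectrum (𝓞 K), α ∈ v.asIdeal →
      T9h30.BT.qf α v = T9h30.BT.qch v := by
    intro v hv
    unfold T9h30.BT.qf
    rw [if_pos hv]
  refine ⟨fun v hv => ?_, fun v hv x hx hy => ?_, fun v hv x hy => ?_⟩
  · unfold T9h30.BT.qf
    rw [if_neg hv]
  · rw [key v hv, T9h30.BT.qch_apply' hx, if_pos hy]
  · have hx : x ∉ v.asIdeal := fun hx => hy ⟨0, by
      rw [zero_pow two_ne_zero, sub_zero]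
      exact hx⟩
    rw [key v hv, T9h30.BT.qch_apply' hx, if_neg hy]

omit [NumberField K] in
/-- the two sides -/
theorem rankZero_of {F : Type} [Field F] [DecidableEq F] [NumberField F] [Algebra K F] {a b : 𝓞 K}
    (h : (Finite (T9h30.BT.cF F a b).toAffine.Point ∧
      Odd (Nat.card (T9h30.BT.cF F a b).toAffine.Point)) ∧
      ∃ H : ℂ → ℂ, MeromorphicOn H Set.univ ∧ AnalyticAt ℂ H 1 ∧ H 1 ≠ 0 ∧
        ∀ s : ℂ, 2 < s.re → H s = (T9h30.BT.cF F a b).LSeries s) :
    RankZero ((curve (a : K) (b : K)).baseChange F) := by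
  have hcF : (curve (a : K) (b : K)).baseChange F = T9h30.BT.cF F a b := by
    unfold curve T9h30.BT.cF T9h30.BT.cv WeierstrassCurve.baseChange WeierstrassCurve.map
    simp
  rw [hcF]
  obtain ⟨⟨h1, h2⟩, H₀, hH1, hH2, hH3, hH4⟩ := h
  have hrank : rank (T9h30.BT.cF F a b) = 0 :=
    Module.finrank_eq_zero_of_rank_eq_zero (rank_eq_zero_iff.2 fun x =>
      ⟨Nat.card (T9h30.BT.cF F a b).toAffine.Point,
        by exact_mod_cast Nat.card_pos.ne', by
          rw [natCast_zsmul]
          exact card_nsmul_eq_zero'⟩)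
  have hord : meromorphicOrderAt H₀ 1 = 0 := by
    rw [hH2.meromorphicOrderAt_eq, analyticOrderAt_eq_zero.2 (Or.inr hH3)]
    rfl
  refine ⟨⟨H₀, hH1, hH2, ⟨fun x _ _ => hH1 _ (Set.mem_univ _), fun s hs => hH4 s hs⟩, ?_⟩,
    fun H hH => ?_, hrank, h1, h2⟩
  · rw [hrank, analyticOrderAt_eq_zero.2 (Or.inr hH3)]
    rfl
  · have h1 := T9h30.BT.order_same hH1 hH.1 (fun s hs => by
      rw [hH.2 s hs]
      exact (hH4 s hs).symm)
    rw [hord] at h1
    refine ⟨by rw [hrank]; exact h1, fun hA => ?_⟩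
    rw [hrank]
    have h2 := hA.meromorphicOrderAt_eq
    rw [h1] at h2
    have h3 : analyticOrderAt H 1 ≠ ⊤ := by
      intro h
      rw [h] at h2
      exact WithTop.coe_ne_top h2
    obtain ⟨m, hm⟩ := WithTop.ne_top_iff_exists.1 h3
    rw [← hm] at h2 ⊢
    have h4 : ((0 : ℤ) : WithTop ℤ) = ((m : ℤ) : WithTop ℤ) := h2
    have h5 : m = 0 := by exact_mod_cast h4.symm
    rw [h5]
    rfl

variable [IsPrincipalIdealRing (𝓞 K)] {σ : K →+* ℂ} {δ : K} {J : Type} {a b n : J → 𝓞 K}
  {c : J → Ideal (𝓞 K) → ℂ}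

open Classical in
/-- groups without zeros are regular -/
theorem regular_of (hIQ : K4H55.BI.IQ K σ δ) (hBF : ∀ i, K4H55.BI.BF σ δ (n i) (c i))
    (hΔ : ∀ i, 4 * a i ^ 3 + 27 * b i ^ 2 ≠ 0)
    (hNF : ∀ i, T9h30.BT.IsNF (T9h30.BT.cv (a i : K) (b i : K)) (n i) (c i))
    (L : J → Type) [∀ i, Field (L i)] [∀ i, NumberField (L i)] [∀ i, Algebra K (L i)]
    (θ : ∀ i, L i) (hθ : ∀ i, IsCubicField (a i) (b i) (θ i))
    (hS : ∀ i, TrivialSelmer (a i) (b i) (θ i)) {N : ℕ} {H : Subgroup (Family K)}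
    (hH : IsCharacterGroup a b N H) {G : Subgroup (Family K)} (hGH : G ≤ H)
    (hG : ∀ g ∈ G, ∀ i, T9h30.BT.bt (K4H55.BI.ordK hIQ)
      (K4H55.BI.fv (K4H55.BI.ordK hIQ) (fun x => c i (Ideal.span {x}))) g ≠ 0) :
    Regular a b G := by
  intro F _ _ _ _ hF hcl i
  have hgal := (hF i).galois
  have hcub := cub_of (hθ i)
  have hun : ∀ v : HeightOneSpectrum (𝓞 K), 2 * (4 * a i ^ 3 + 27 * b i ^ 2) ∉ v.asIdeal →
      ¬ (∀ x : 𝓞 K, x ^ 3 + a i * x + b i ∉ v.asIdeal) → ∀ u : T9h30.BT.Ab F v, ∀ x : K,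
        u.1.valuation F (algebraMap K F x) = v.valuation K x := fun v h3 h4 u x =>
    (hF i).unramified v h3 (fun h5 => h4 h5.2) ⟨u.1, T9h30.BT.lo_iff.1 u.2⟩ x
  rcases hcl with hcl | hcl
  · have hrec : ∀ ψ : (F ≃ₐ[K] F) →* ℂˣ, ∃ g ∈ G, ∀ u : HeightOneSpectrum (𝓞 F),
        T9h30.BT.lo (K := K) u ∉ T9h30.BT.sp g → ∀ t : F ≃ₐ[K] F, T9h30.BT.Frb u t →
        ((ψ t : ℂˣ) : ℂ) = T9h30.BT.X (T9h30.BT.sp g) g (K4H55.BI.gen (T9h30.BT.lo (K := K) u)) := by
      intro ψ
      obtain ⟨g, hg, h3⟩ := hcl.reciprocity ((Units.coeHom ℂ).comp ψ)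
      have hfin := hH.finite g (hGH hg)
      refine ⟨g, hg, fun u hu t ht => ?_⟩
      have h4 := h3 (T9h30.BT.lo (K := K) u) (by
        by_contra h5
        exact hu ((T9h30.BT.mem_sp hfin _).2 h5)) ⟨u, rfl⟩ t ht
      rw [value_eq hfin] at h4
      exact h4
    choose g hg hlaw using hrec
    have hfin := fun ψ => hH.finite (g ψ) (hGH (hg ψ))
    have hunit : ∀ ψ u, IsUnit u → T9h30.BT.X (T9h30.BT.sp (g ψ)) (g ψ) u = 1 := by
      intro ψ u hu
      rw [← value_eq (hfin ψ)]
      exact hH.units _ (hGH (hg ψ)) u hu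
    have hR : T9h30.BT.Rec (fun ψ => T9h30.BT.sp (g ψ))
        (fun ψ => T9h30.BT.X (T9h30.BT.sp (g ψ)) (g ψ)) := by
      refine ⟨fun ψ x => ?_, hlaw⟩
      by_cases h0 : T9h30.BT.X (T9h30.BT.sp (g ψ)) (g ψ) x = 0
      · exact Or.inr h0
      · exact Or.inl (Complex.norm_eq_one_of_pow_eq_one (T9h30.BT.X_pow
          (hH.order _ (hGH (hg ψ))) (T9h30.BT.X_ne.1 h0)) (by positivity))
    obtain ⟨k, hk⟩ := (hF i).degree
    refine rankZero_of (T9h30.BT.one_field (hΔ i) (hNF i) hcub (hθ i).root (hS i) hk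
      (hF i).split hun hcl.abelian hR fun ψ => ?_)
    refine T9h30.BT.val_ne hIQ (hBF i) (hfin ψ) (hH.order _ (hGH (hg ψ))) (hunit ψ) (fun v hv => ?_)
      (hG _ (G.inv_mem (hg ψ)) i)
    have h1 := adm_of (hNF i) v (hH.admissible _ (hGH (hg ψ)) v
      ((T9h30.BT.mem_sp (hfin ψ) v).1 hv) i)
    exact ⟨h1.1, h1.2.1⟩
  · obtain ⟨ω₀, t₀, m₀, hB⟩ := T9h30.BT.exists_bs hIQ
    refine rankZero_of (T9h30.BT.quad_field hB (hΔ i) (hNF i) hcub (hθ i).root (hS i) hcl.exponent
      (hF i).split hun fun α hα hβ => ?_)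
    obtain ⟨g, hg, h3⟩ := hcl.kummer α hα.ne hα.sqf hβ
    have h4 := eq_of_qc h3
    subst h4
    have hfin := T9h30.BT.qf_fin hα.ne
    refine T9h30.BT.val_ne hIQ (hBF i) hfin (N := 1) (by rw [pow_one]; exact T9h30.BT.qf_sq α)
      hα.unit (fun v hv => ?_) (hG _ (G.inv_mem hg) i)
    have h1 := adm_of (hNF i) v (hH.admissible _ (hGH hg) v ((T9h30.BT.mem_sp hfin v).1 hv) i)
    exact ⟨h1.1, h1.2.1⟩

/-- the group of families is admissible for the congruences -/
lemma ok_of [Nonempty J] (hNF : ∀ i, T9h30.BT.IsNF (T9h30.BT.cv (a i : K) (b i : K)) (n i) (c i))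
    {lam : Ideal (integralClosure ℤ ℂ)} (hlam : lam.IsPrime)
    (h2 : (2 : integralClosure ℤ ℂ) ∈ lam) {N : ℕ} {H : Subgroup (Family K)}
    (hH : IsCharacterGroup a b N H) :
    T9h30.BT.Ok H (2 ^ N) (T9h30.BT.Ad n (fun i x => c i (Ideal.span {x})) lam) := by
  obtain ⟨j⟩ := (inferInstance : Nonempty J)
  refine ⟨hH.order, hH.finite, fun g hg v hv => ?_⟩
  have h3 := fun i => adm_of (hNF i) v (hH.admissible g hg v hv i)
  exact T9h30.BT.ad_of_odd hlam h2 (h3 j).1 fun i => (h3 i).2

end proof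

/-- **The rank conjecture over towers of abelian extensions of `2`-power degree.** Let `K` be an imaginary quadratic
field of class number one, and let `E_i : y² = x³ + a_i x + b_i`, `i ∈ J`, be finitely many elliptic curves over `K`, with
the newforms `f_i`; suppose that `L(E_i/K, 1) ≠ 0`, `E_i(K)[2] = 0` and that the `2`-Selmer group of `E_i/K` is trivial.
(1) For all `N` and `r` there is a `V` such that for every group `H` of characters of `K` (of order dividing `2^N`, of
conductors which are products of different admissible places) there is a subset `C` of `H^r`, with at most `V` elements, such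
that for every `x ∈ H^r` there is a `k ∈ C` such that the group generated by the components of `x k` is regular;
and if `H` is finite, the group generated by the components of `x` is regular for at least `|H|^r / V` elements
`x ∈ H^r`.
(2) Every infinite `H` contains an infinite regular group.
(3) If there is an admissible place, or if there is only one curve, there is an infinite set `A` of squarefree elements of `𝓞`,
different modulo squares and a group modulo squares, such that the rank conjecture holds, both sides being zero, for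
all `E_i/F` for all finite extensions `F/K` generated by square roots of elements of `A`. -/
theorem result (K : Type) [Field K] [NumberField K] [IsPrincipalIdealRing (𝓞 K)] (σ : K →+* ℂ)
    (δ : K) (hK : IsFieldData K σ δ) (J : Type) [Fintype J] [Nonempty J] (a b : J → 𝓞 K)
    (hΔ : ∀ i, 4 * a i ^ 3 + 27 * b i ^ 2 ≠ 0) (n : J → 𝓞 K) (c : J → Ideal (𝓞 K) → ℂ)
    (hf : ∀ i, IsNewform σ δ (n i) (c i))
    (hE : ∀ i, IsNewformOf (curve (a i : K) (b i : K)) (n i) (c i))
    (hL : ∀ i, NonzeroCentralValue (curve (a i : K) (b i : K)))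
    (L : J → Type) [∀ i, Field (L i)] [∀ i, NumberField (L i)] [∀ i, Algebra K (L i)]
    (θ : ∀ i, L i) (hθ : ∀ i, IsCubicField (a i) (b i) (θ i))
    (hS : ∀ i, TrivialSelmer (a i) (b i) (θ i)) :
    (∀ N r : ℕ, ∃ V : ℕ, ∀ H : Subgroup (Family K), IsCharacterGroup a b N H →
      (∃ C : Finset (Fin r → Family K), C.card ≤ V ∧ (∀ k ∈ C, ∀ l, k l ∈ H) ∧
        ∀ x : Fin r → Family K, (∀ l, x l ∈ H) → ∃ k ∈ C,
          Regular a b (Subgroup.closure (Set.range (x * k)))) ∧
      (Finite H → Nat.card H ^ r ≤ V * Nat.card {x : Fin r → H //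
        Regular a b (Subgroup.closure (Set.range fun l => (x l : Family K)))})) ∧
    (∀ (N : ℕ) (H : Subgroup (Family K)), IsCharacterGroup a b N H →
      (H : Set (Family K)).Infinite → ∃ G ≤ H, (G : Set (Family K)).Infinite ∧ Regular a b G) ∧
    (Subsingleton J ∨ (∃ v : HeightOneSpectrum (𝓞 K), ∀ i, Admissible (a i) (b i) v) →
      ∃ A : Set (𝓞 K), A.Infinite ∧
        (∀ α ∈ A, α ≠ 0 ∧ ∀ v : HeightOneSpectrum (𝓞 K), α ∉ v.asIdeal ^ 2) ∧
        (∀ α ∈ A, ∀ β ∈ A, IsSquare (α * β) → α = β) ∧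
        (∀ α ∈ A, ∀ β ∈ A, ∃ γ ∈ A, IsSquare (α * β * γ)) ∧
        ∀ (F : Type) [Field F] [DecidableEq F] [NumberField F] [Algebra K F],
          IntermediateField.adjoin K {x : F | ∃ α ∈ A, x ^ 2 = algebraMap K F (α : K)} = ⊤ →
          ∀ i, RankZero ((curve (a i : K) (b i : K)).baseChange F)) := by
  classical
  have hIQ : K4H55.BI.IQ K σ δ := ⟨hK.quadratic, hK.imaginary, inferInstance, hK.different⟩
  have hBF : ∀ i, K4H55.BI.BF σ δ (n i) (c i) := fun i => ⟨(hf i).level, (hf i).zero, (hf i).one,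
    (hf i).bound, (hf i).good, (hf i).bad, (hf i).invariant, (hf i).fricke⟩
  have hNF := fun i => nf_of (hE i)
  obtain ⟨lam, hlam, h2⟩ := K4H55.CX.exists_lam
  choose C w κ κW hN using fun i => (hBF i).newf hIQ
  have hMG := fun i => (hN i).mg
  have h0 : ∀ i, K4H55.BI.fv (K4H55.BI.ordK hIQ) (fun x => c i (Ideal.span {x})) 0 ≠ 0 := by
    intro i
    obtain ⟨H, h1, h2, h3⟩ := hL i
    exact T9h30.BT.base_ne hIQ (hBF i) (hNF i) h1.1 h1.2 h2 h3
  have hinf : ∀ (N : ℕ) (H : Subgroup (Family K)), IsCharacterGroup a b N H →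
      (H : Set (Family K)).Infinite → ∃ G ≤ H, (G : Set (Family K)).Infinite ∧
        Regular a b G := by
    intro N H hH hHi
    obtain ⟨G, -, h3, h4, h5⟩ := T9h30.BT.eng_inf (a := fun i x => c i (Ideal.span {x})) hMG h0 N
      lam hlam h2 H (ok_of hNF hlam h2 hH) hHi ⊥ bot_le (fun g hg i => by
        rw [Subgroup.mem_bot] at hg
        rw [hg, T9h30.BT.bt_one]
        exact h0 i)
    exact ⟨G, h3, h4, regular_of hIQ hBF hΔ hNF L θ hθ hS hH h3 h5⟩
  refine ⟨fun N r => ?_, hinf, fun hA => ?_⟩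
  · obtain ⟨V, hV⟩ := T9h30.BT.eng (a := fun i x => c i (Ideal.span {x})) hMG h0 N r lam hlam h2
    refine ⟨2 ^ V, fun H hH => ?_⟩
    obtain ⟨S, hS1, hS2, hS3⟩ := hV H (ok_of hNF hlam h2 hH)
    have hreg : ∀ x : Fin r → Family K, (∀ l, x l ∈ H) → ∃ k ∈ S,
        Regular a b (Subgroup.closure (Set.range (x * k))) := by
      intro x hx
      obtain ⟨k, hk, h3⟩ := hS3 x hx
      refine ⟨k, hk, regular_of hIQ hBF hΔ hNF L θ hθ hS hH ?_ h3⟩
      rw [Subgroup.closure_le]
      rintro _ ⟨l, rfl⟩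
      exact H.mul_mem (hx l) (hS2 k hk l)
    refine ⟨⟨S, hS1, hS2, hreg⟩, fun hfin => ?_⟩
    choose! κ' hκ1 hκ2 using hreg
    -- the count
    let Sub := {x : Fin r → H // Regular a b (Subgroup.closure (Set.range fun l =>
      (x l : Family K)))}
    have hx : ∀ x : Fin r → H, ∀ l, (fun l => (x l : Family K)) l ∈ H := fun x l => (x l).2
    let φ : (Fin r → H) → S × Sub := fun x =>
      (⟨κ' fun l => (x l : Family K), hκ1 _ (hx x)⟩,
        ⟨fun l => ⟨x l * κ' (fun l => (x l : Family K)) l,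
          H.mul_mem (x l).2 (hS2 _ (hκ1 _ (hx x)) l)⟩, hκ2 _ (hx x)⟩)
    have hφ : Function.Injective φ := by
      intro x y hxy
      have h4 : κ' (fun l => (x l : Family K)) = κ' (fun l => (y l : Family K)) :=
        congrArg Subtype.val (Prod.ext_iff.1 hxy).1
      have h5 := congrArg Subtype.val (Prod.ext_iff.1 hxy).2
      funext l
      have h6 : (x l : Family K) * κ' (fun l => (x l : Family K)) l =
          y l * κ' (fun l => (y l : Family K)) l := congrArg Subtype.val (congrFun h5 l)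
      rw [h4] at h6
      exact Subtype.ext (mul_right_cancel h6)
    have h4 := Nat.card_le_card_of_injective φ hφ
    rw [Nat.card_prod, Nat.card_fun, Nat.card_eq_fintype_card (α := Fin r), Fintype.card_fin,
      Nat.card_eq_fintype_card (α := S), Fintype.card_coe] at h4
    exact h4.trans (Nat.mul_le_mul_right _ hS1)
  · -- the places
    have hXi : {v : HeightOneSpectrum (𝓞 K) | ∀ i, 2 * (4 * a i ^ 3 + 27 * b i ^ 2) ∉ v.asIdeal ∧
        ∀ x : 𝓞 K, x ^ 3 + a i * x + b i ∉ v.asIdeal}.Infinite := by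
      rcases hA with hA | ⟨v, hv⟩
      · exact T9h30.BT.adm_inf_one hΔ fun i => K4H55.CX.cub_noroot (cub_of (hθ i)) (hθ i).root
      · exact T9h30.BT.adm_inf hΔ (v := v) fun i => (hv i).2
    set X : Set (HeightOneSpectrum (𝓞 K)) := {v : HeightOneSpectrum (𝓞 K) | ∀ i,
      2 * (4 * a i ^ 3 + 27 * b i ^ 2) ∉ v.asIdeal ∧
        ∀ x : 𝓞 K, x ^ 3 + a i * x + b i ∉ v.asIdeal} with hX
    set D : 𝓞 K := ∏ i, (4 * a i ^ 3 + 27 * b i ^ 2) with hD
    have hD0 : D ≠ 0 := Finset.prod_ne_zero_iff.2 fun i _ => hΔ i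
    obtain ⟨j⟩ := (inferInstance : Nonempty J)
    have h2X : ∀ v ∈ X, (2 : 𝓞 K) ∉ v.asIdeal := fun v hv h3 =>
      (hv j).1 (v.asIdeal.mul_mem_right _ h3)
    have hDX : ∀ v ∈ X, 2 * D ∉ v.asIdeal := by
      intro v hv h3
      rcases v.isPrime.mem_or_mem h3 with h4 | h4
      · exact h2X v hv h4
      · obtain ⟨i, -, h5⟩ := v.isPrime.prod_mem_iff.1 h4
        exact (hv i).1 (v.asIdeal.mul_mem_left _ h5)
    have h4 : (4 : 𝓞 K) = 2 * 2 := by norm_num
    have hm0 : 4 * (2 * D) ≠ 0 := by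
      rw [h4]
      exact mul_ne_zero (mul_ne_zero two_ne_zero two_ne_zero) (mul_ne_zero two_ne_zero hD0)
    obtain ⟨V, hVX, hVi, hVc⟩ := T9h30.BT.exists_class hXi hm0 fun v hv h3 => by
      rcases v.isPrime.mem_or_mem h3 with h5 | h5
      · rw [h4] at h5
        rcases v.isPrime.mem_or_mem h5 with h6 | h6 <;> exact h2X v hv h6
      · exact hDX v hv h5
    have h2V : ∀ v ∈ V, (2 : 𝓞 K) ∉ v.asIdeal := fun v hv => h2X v (hVX hv)
    obtain ⟨ω₀, t₀, m₀, hB⟩ := T9h30.BT.exists_bs hIQ
    have hH : IsCharacterGroup a b 1 (T9h30.BT.GV V) := by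
      have hfin : ∀ c ∈ T9h30.BT.GV V, {v | c v ≠ 1}.Finite := by
        rintro _ ⟨S, hS1, hS2, rfl⟩
        exact T9h30.BT.qf_fin T9h30.BT.prod_gen_ne
      refine ⟨?_, hfin, ?_, fun c hc u hu => ?_⟩
      · rintro _ ⟨S, hS1, hS2, rfl⟩
        rw [pow_one]
        exact T9h30.BT.qf_sq _
      · rintro _ ⟨S, hS1, hS2, rfl⟩ v hv i
        exact hVX (hS1 v (T9h30.BT.mem_prod_gen.1 (T9h30.BT.qf_sub hv))) i
      · rw [value_eq (hfin c hc)]
        obtain ⟨S, hS1, hS2, rfl⟩ := hc
        obtain ⟨y, hy1, hy2⟩ := hVc.prod_sq hS1 hS2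
        refine T9h30.BT.unit_qf hB (y := y) T9h30.BT.prod_gen_ne (T9h30.BT.prod_gen_sqf S)
          (fun v h3 h5 => h2V v (hS1 v (T9h30.BT.mem_prod_gen.1 h5)) h3)
          ((dvd_mul_right _ _).trans hy1) (T9h30.BT.cop_four fun v h3 => hy2 v ?_) hu
        exact v.asIdeal.mul_mem_right _ (by rw [h4]; exact v.asIdeal.mul_mem_right _ h3)
    obtain ⟨G, h3, h5, h6⟩ := hinf 1 _ hH (T9h30.BT.GV_inf h2V hVi)
    -- the elements
    set A : Set (𝓞 K) := {α | ∃ S : Finset (HeightOneSpectrum (𝓞 K)), (∀ v ∈ S, v ∈ V) ∧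
      Even S.card ∧ α = ∏ w ∈ S, K4H55.BI.gen w ∧ T9h30.BT.qf α ∈ G} with hAd
    have hAs : ∀ α ∈ A, α ≠ 0 ∧ ∀ v : HeightOneSpectrum (𝓞 K), α ∉ v.asIdeal ^ 2 := by
      rintro _ ⟨S, hS1, hS2, rfl, hS3⟩
      exact ⟨T9h30.BT.prod_gen_ne, T9h30.BT.prod_gen_sqf S⟩
    have hAV : ∀ α ∈ A, ∀ v : HeightOneSpectrum (𝓞 K), α ∈ v.asIdeal → v ∈ X := by
      rintro _ ⟨S, hS1, hS2, rfl, hS3⟩ v hv
      exact hVX (hS1 v (T9h30.BT.mem_prod_gen.1 hv))
    have hGs : T9h30.BT.Gs A D X := by
      refine ⟨?_, hAV⟩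
      rintro _ ⟨S, hS1, hS2, rfl, hS3⟩
      obtain ⟨y, hy1, hy2⟩ := hVc.prod_sq hS1 hS2
      exact ⟨y, hy1, fun v hv => hy2 v (v.asIdeal.mul_mem_left _ hv)⟩
    refine ⟨A, ?_, hAs, ?_, ?_, ?_⟩
    · refine Set.Infinite.of_image T9h30.BT.qf (h5.mono ?_)
      intro g hg
      obtain ⟨S, hS1, hS2, hS3⟩ := h3 hg
      exact ⟨∏ w ∈ S, K4H55.BI.gen w, ⟨S, hS1, hS2, rfl, by rw [← hS3]; exact hg⟩, hS3.symm⟩
    · rintro _ ⟨S, hS1, hS2, rfl, hS3⟩ _ ⟨T, hT1, hT2, rfl, hT3⟩ hsq
      rw [T9h30.BT.prod_isSquare hsq]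
    · rintro _ ⟨S, hS1, hS2, rfl, hS3⟩ _ ⟨T, hT1, hT2, rfl, hT3⟩
      refine ⟨_, ⟨S \ T ∪ T \ S, fun v hv => ?_, T9h30.BT.even_symm hS2 hT2, rfl, ?_⟩,
        T9h30.BT.prod_mul_sq S T⟩
      · rw [Finset.mem_union, Finset.mem_sdiff, Finset.mem_sdiff] at hv
        rcases hv with hv | hv
        · exact hS1 v hv.1
        · exact hT1 v hv.1
      · rw [← T9h30.BT.qf_symm]
        exact G.mul_mem hS3 hT3
    · intro F _ _ _ _ hF
      have hF' : IntermediateField.adjoin K (T9h30.BT.rts F A) = ⊤ := hF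
      have hG := T9h30.BT.mq_galois hF'
      have hsq := T9h30.BT.mq_sq hF'
      refine h6 F (fun i => ⟨hG, T9h30.BT.deg_of_sq hsq, fun v hv => ?_, fun v hv hva u x => ?_⟩)
        (Or.inr ⟨hsq, fun α hα0 hαs hβ => ?_⟩)
      · refine hGs.split hF' ?_
        rcases v.isPrime.mem_or_mem hv with h7 | h7
        · exact v.asIdeal.mul_mem_right _ h7
        · refine v.asIdeal.mul_mem_left _ ?_
          rw [hD, ← Finset.mul_prod_erase Finset.univ _ (Finset.mem_univ i)]
          exact v.asIdeal.mul_mem_right _ h7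
      · obtain ⟨u, hu⟩ := u
        have hu' : T9h30.BT.lo (K := K) u = v := T9h30.BT.lo_iff.2 hu
        subst hu'
        exact T9h30.BT.mq_unr hF' u (fun h2 => hv (Ideal.mul_mem_right _ _ h2))
          (fun α hα h8 => hva (hAV α hα _ h8 i)) x
      · obtain ⟨β, hβ⟩ := hβ
        obtain ⟨e, s, he, hs, hes⟩ := T9h30.BT.kummer_gen hF' (fun α hα => (hAs α hα).1) hα0 hβ
        refine ⟨T9h30.BT.qf α, T9h30.BT.qf_mem hαs he (fun γ hγ => ?_) hes, qc_qf α⟩
        obtain ⟨S, hS1, hS2, hS3, hS4⟩ := hs γ hγ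
        exact ⟨(hAs γ (hs γ hγ)).1, (hAs γ (hs γ hγ)).2, hS4⟩

end Pool.Agent.Results.MP_cd906c_nt.AbelianTowersManyCurves
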