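import Pool.Agent.T9h30.BT.Kdu
import Pool.Agent.K4H55.CX.AbL

/-!
# The rank conjecture over all multiquadratic extensions with prescribed ramification

`K` is an imaginary quadratic field of class number one, `E : y² = x³ + a x + b` is an elliptic curve over `K`
(which need not be the base change of a curve over `ℚ`, nor have complex multiplication), and `f` is its
newform: the Bianchi newform of weight two over `K` with `L(E/K, s) = L(f, s)`, Euler factor by Euler factor.

Suppose that `E(K)[2] = 0`, that the `2`-Selmer group of `E/K` is trivial, and that the central value is odd: the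
value `Φ(0)` of the primitive `Φ` of the harmonic differential of `f` at the cusp `0` is not in `2 w Λ`, where
`Λ ≅ ℤ` is the group of the values of `Φ` at the cusps `x/m`, `m` prime to the level, and
`w = #{u ∈ 𝓞 : u⁴ = 1}`.

A place `v ∤ 2(4a³ + 27b²)` of `K` is admissible if `x³ + a x + b` has no root modulo `v`.

Theorem. (1) Let `F/K` be any multiquadratic extension (a Galois extension whose group has exponent dividing `2`, of any
degree), unramified outside of the admissible places, in which the places `v ∣ 2(4a³ + 27b²)` split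
completely. Then the `L`-series of `E` over `F` (that of Mathlib) has a meromorphic continuation to `ℂ`, which is
analytic and not zero at `s = 1`, `E(F)` is finite of odd order, and so the equality of Birch and
Swinnerton-Dyer `ord_{s = 1} L(E/F, s) = rank E(F)` holds, both sides being zero, for every continuation of the
`L`-series. `F` is in general not a Galois extension of `ℚ`. The same holds for all abelian `F/K` of `2`-power
degree, of any exponent, with this ramification which are class fields of characters of `K` whose conductors are products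
of different admissible places, in the sense that the law of reciprocity holds for them (by class field theory, which is
not in Mathlib, this is no condition).
(2) There is a set `P` of primes of `K`, of positive upper density, such that this holds over all the fields
`F` generated over `K` by square roots of products of two elements of `P`: it holds in a tower of fields of degrees
`1, 2, 4, 8, ...` over `K`, and for each `π₀ ∈ P` over `K(√(π₀ π))` for all `π ∈ P`.

The proof. The descent is `Pool.Agent.K4H55.CX.fin_up` of the library, and the functions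
`L(f ⊗ χ, s)` are entire and not zero at `s = 1` by the congruences modulo the primes above `2` of
`Pool.Agent.K4H55.CX.chr_unit`. New (`Pool/Agent/T9h30/BT`): `L(E/F, s)`, in the sense of Mathlib, is the product
of these functions up to finitely many Euler factors, which are finite and not zero at `s = 1`. This uses the
decomposition of the places in `F/K`, duality for the Galois group, the number of points of `E` over the
extensions of the residue fields, Kummer theory, and the law of quadratic reciprocity in `K`: it is proved here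
(`BT/JacR`) for `K` of class number one, by a reduction to Jacobi symbols of the values of the norm form of `K`. For (2)
Chebotarev's theorem over `K`, from the library, is used.
-/

set_option autoImplicit false

open NumberField IsDedekindDomain Filter Topology
open scoped TensorProduct

namespace Pool.Agent.Results.MP_cd906c_nt.AbelianTwoExtensions

/-- `K` is an imaginary quadratic field, `σ` is one of its two embeddings in `ℂ`, and `δ` generates the
different of `K`: an `x ∈ K` is in `𝓞` if and only if `Tr(x y / δ) ∈ ℤ` for all `y ∈ 𝓞`. -/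
structure IsFieldData (K : Type) [Field K] [NumberField K] (σ : K →+* ℂ) (δ : K) : Prop where
  quadratic : Module.finrank ℚ K = 2
  imaginary : ∃ x, (starRingEnd ℂ) (σ x) ≠ σ x
  different : ∀ x : K, (∃ a : 𝓞 K, (a : K) = x) ↔
    ∀ y : 𝓞 K, ∃ m : ℤ, Algebra.trace ℚ K (x * y / δ) = m

/-- `h(y) = ∫_0^∞ exp(-1/v - y v) dv = 2 y^(-1/2) K₁(2 √y)`, with the Bessel function `K₁`. -/
noncomputable def bessel (y : ℝ) : ℝ := ∫ v in Set.Ioi (0 : ℝ), Real.exp (-(1 / v) - y * v)

/-- The additive character `e(z) = exp(2πi (z/δ + conj (z/δ)))` of `ℂ`, trivial on `𝓞`. -/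
noncomputable def addChar (δ z : ℂ) : ℂ :=
  Complex.exp (2 * Real.pi * Complex.I * (z / δ + (starRingEnd ℂ) (z / δ)))

/-- The denominator `|c z + d|² + |c|² t²` of the action of the matrix `(a, b; c, d)` on the hyperbolic
space `{(z, t) : z ∈ ℂ, t > 0}`. -/
noncomputable def den (c d z : ℂ) (t : ℝ) : ℝ := ‖c * z + d‖ ^ 2 + ‖c‖ ^ 2 * t ^ 2

/-- The first coordinate `((a z + b) conj (c z + d) + a conj(c) t²) / (|c z + d|² + |c|² t²)` of the image
of `(z, t)` under the matrix `(a, b; c, d)`. -/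
noncomputable def actZ (a b c d z : ℂ) (t : ℝ) : ℂ :=
  ((a * z + b) * (starRingEnd ℂ) (c * z + d) + a * (starRingEnd ℂ) c * (t : ℂ) ^ 2) /
    (den c d z t : ℂ)

/-- The second coordinate, for a matrix of determinant one; in general it is `|ad - bc|` times this. -/
noncomputable def actT (c d z : ℂ) (t : ℝ) : ℝ := t / den c d z t

section field
variable {K : Type} [Field K] [NumberField K]

/-- The function `Φ(z, t) = ∑_{x ∈ 𝓞} c((x)) t² h(N(x) (2πt/|δ|)²) e(x z)
  = (|δ|/π) ∑_{x ≠ 0} (c((x))/|x|) t K₁(4π|x|t/|δ|) e(x z)` on the hyperbolic space, with the coefficients `c`.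
Up to a constant factor it is the primitive, zero at the cusp `∞`, of the harmonic differential of the
form of weight two with the Fourier coefficients `c`: its derivative by `t` is
`-4 ∑_{x ≠ 0} c((x)) t K₀(4π|x|t/|δ|) e(x z)`. -/
noncomputable def primitive (σ : K →+* ℂ) (δ : K) (c : Ideal (𝓞 K) → ℂ) (z : ℂ) (t : ℝ) : ℂ :=
  ∑' x : 𝓞 K, c (Ideal.span {x}) * ((t ^ 2 * bessel (Ideal.absNorm (Ideal.span {x}) *
    (2 * Real.pi * t / ‖σ δ‖) ^ 2) : ℝ) : ℂ) * addChar (σ δ) (σ x * z)

/-- The group `Λ` generated by the values of the primitive `Φ` at the cusps `x/m`, `m ≠ 0` prime to the level (that is,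
by the limits of `Φ(x/m, t)` for `t → 0`). -/
def Lam (σ : K →+* ℂ) (δ : K) (n : 𝓞 K) (c : Ideal (𝓞 K) → ℂ) : AddSubgroup ℂ :=
  AddSubgroup.closure {z | ∃ x m : 𝓞 K, m ≠ 0 ∧ IsCoprime m n ∧
    Tendsto (fun t => primitive σ δ c (σ x / σ m) t) (𝓝[>] 0) (𝓝 z)}

/-- The numbers `c(I)` are the Hecke eigenvalues of a Bianchi newform `f` of weight two, level `(n)` and
trivial character over `K`, with rational eigenvalues: they satisfy `c(𝓞) = 1`, the (trivial) bound `c(I) = O(N(I))`
and the Hecke relations `c(v I) = c(v) c(I)` for `v ∤ I`, `c(v² I) = c(v) c(v I) - N(v) c(I)` for the primes `v ∤ n`, and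
`c(v I) = c(v) c(I)` for `v ∣ n`; the differential `dΦ` of the function `Φ` with the coefficients `c` is
invariant under `Γ₀(n)`, that is, `Φ(γ P) - Φ(P)` is a constant for every `γ ∈ Γ₀(n)`; `dΦ` is an
eigenform, with the eigenvalue `±1`, of the Fricke involution `W = (0, -1; n, 0)`; and the group `Λ` of the values of `Φ` at
cusps is cyclic (this is so for rational eigenvalues, by multiplicity one and the theorem of Manin, Drinfeld and
Kurčanov: the quotient of `H₁(Γ₀(n), cusps; ℤ)` which belongs to `f` has rank one). -/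
structure IsNewform (σ : K →+* ℂ) (δ : K) (n : 𝓞 K) (c : Ideal (𝓞 K) → ℂ) : Prop where
  level : n ≠ 0
  zero : c ⊥ = 0
  one : c ⊤ = 1
  bound : ∃ C : ℝ, ∀ I, ‖c I‖ ≤ C * Ideal.absNorm I
  good : ∀ v : HeightOneSpectrum (𝓞 K), n ∉ v.asIdeal → ∀ I,
    (¬ v.asIdeal ∣ I → c (v.asIdeal * I) = c v.asIdeal * c I) ∧
    c (v.asIdeal * (v.asIdeal * I)) = c v.asIdeal * c (v.asIdeal * I) -
      Ideal.absNorm v.asIdeal * c I
  bad : ∀ v : HeightOneSpectrum (𝓞 K), n ∈ v.asIdeal → ∀ I,
    c (v.asIdeal * I) = c v.asIdeal * c I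
  invariant : ∃ κ : Matrix.SpecialLinearGroup (Fin 2) (𝓞 K) → ℂ,
    ∀ γ : Matrix.SpecialLinearGroup (Fin 2) (𝓞 K), n ∣ γ.1 1 0 → ∀ (z : ℂ) (t : ℝ), 0 < t →
      primitive σ δ c (actZ (σ (γ.1 0 0)) (σ (γ.1 0 1)) (σ (γ.1 1 0)) (σ (γ.1 1 1)) z t)
        (actT (σ (γ.1 1 0)) (σ (γ.1 1 1)) z t) = primitive σ δ c z t + κ γ
  fricke : ∃ w κ : ℂ, w * w = 1 ∧ ∀ (z : ℂ) (t : ℝ), 0 < t →
    primitive σ δ c (actZ 0 (-1) (σ n) 0 z t) (‖σ n‖ * actT (σ n) 0 z t) =
      -w * primitive σ δ c z t + κ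
  cyclic : ∃ ω ∈ Lam σ δ n c, ∀ l ∈ Lam σ δ n c, ∃ j : ℤ, l = j * ω

/-- The number `w` of the `u ∈ 𝓞` with `u⁴ = 1`: it is `4` for `K = ℚ(i)` and `2` otherwise. -/
noncomputable def fourth (K : Type) [Field K] : ℕ := Nat.card {u : 𝓞 K // u ^ 4 = 1}

/-- The central value is odd: `Φ(0)`, the limit of `Φ(0, t)` for `t → 0`, is not in `2 w Λ`. -/
def OddCentralValue (σ : K →+* ℂ) (δ : K) (n : 𝓞 K) (c : Ideal (𝓞 K) → ℂ) : Prop :=
  ∃ z₀ : ℂ, Tendsto (fun t => primitive σ δ c 0 t) (𝓝[>] 0) (𝓝 z₀) ∧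
    ∀ y ∈ Lam σ δ n c, z₀ ≠ 2 * fourth K * y

open Classical in
/-- `f` is the newform of the curve `E`, that is, `L(E/K, s) = L(f, s)`, Euler factor by Euler factor: at every
finite place `v` of `K` the polynomial of the local factor of `E` (that of Mathlib) is
`1 - c(v) X + N(v) X²` if `v ∤ n`, and `1 - c(v) X` if `v ∣ n`. -/
def IsNewformOf (E : WeierstrassCurve K) (n : 𝓞 K) (c : Ideal (𝓞 K) → ℂ) : Prop :=
  ∀ v : HeightOneSpectrum (𝓞 K),
    ((E.baseChange (v.adicCompletion K)).localPolynomial (v.adicCompletionIntegers K)).map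
      (Int.castRingHom ℂ) = 1 - Polynomial.C (c v.asIdeal) * Polynomial.X +
        Polynomial.C (if n ∈ v.asIdeal then 0 else (Ideal.absNorm v.asIdeal : ℂ)) * Polynomial.X ^ 2

section selmer
variable {L : Type} [Field L] [NumberField L] [Algebra K L]

/-- `L = K(θ)` is the cubic field of `E`: `θ³ + a θ + b = 0`, and every element of `L` is `u + v θ + w θ²` for
unique `u, v, w ∈ K`. So `x³ + a x + b` is irreducible over `K`, that is, `E(K)[2] = 0`. -/
structure IsCubicField (a b : 𝓞 K) (θ : L) : Prop where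
  root : θ ^ 3 + algebraMap K L a * θ + algebraMap K L b = 0
  basis : ∀ β : L, ∃! t : K × K × K,
    β = algebraMap K L t.1 + algebraMap K L t.2.1 * θ + algebraMap K L t.2.2 * θ ^ 2

/-- The class of `α` in `(K_v ⊗ L)^×` modulo squares is in the group generated by the images of the points
`(x, y)`, `y ≠ 0`, of `E(K_v)` under the Kummer map `(x, y) ↦ x - θ`. (This group is the image of `E(K_v)/2E(K_v)`, as
the map is a homomorphism and all classes contain points with `y ≠ 0`.) -/
def LocalCondition (a b : 𝓞 K) (θ : L) (v : HeightOneSpectrum (𝓞 K)) (α : L) : Prop :=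
  ∃ s : List (v.adicCompletion K),
    (∀ x ∈ s, ∃ y : v.adicCompletion K, y ≠ 0 ∧
      y ^ 2 = x ^ 3 + algebraMap K (v.adicCompletion K) a * x +
        algebraMap K (v.adicCompletion K) b) ∧
    IsSquare (((1 : v.adicCompletion K) ⊗ₜ[K] α) *
      (s.map fun x => x ⊗ₜ[K] (1 : L) - 1 ⊗ₜ[K] θ).prod)

/-- The `2`-Selmer group of `E/K` is trivial. As `E(K)[2] = 0` and `K` has no real places, it is the group of the
classes of `α ∈ L^×` modulo squares such that the norm of `α` is a square, `w(α)` is even for all places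
`w ∤ 2(4a³ + 27b²)` of `L`, and `α` satisfies the local conditions at the places `v ∣ 2(4a³ + 27b²)` of `K`. -/
def TrivialSelmer (a b : 𝓞 K) (θ : L) : Prop :=
  ∀ α : L, α ≠ 0 → IsSquare (Algebra.norm K α) →
    (∀ w : HeightOneSpectrum (𝓞 L), algebraMap (𝓞 K) (𝓞 L) (2 * (4 * a ^ 3 + 27 * b ^ 2)) ∉
      w.asIdeal → IsSquare (w.valuation L α)) →
    (∀ v : HeightOneSpectrum (𝓞 K), 2 * (4 * a ^ 3 + 27 * b ^ 2) ∈ v.asIdeal →
      LocalCondition a b θ v α) → IsSquare α

end selmer

/-- The admissible places: `v ∤ 2(4a³ + 27b²)`, and `x³ + a x + b` has no root modulo `v`. -/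
def Admissible (a b : 𝓞 K) (v : HeightOneSpectrum (𝓞 K)) : Prop :=
  2 * (4 * a ^ 3 + 27 * b ^ 2) ∉ v.asIdeal ∧ ∀ x : 𝓞 K, x ^ 3 + a * x + b ∉ v.asIdeal

/-- `χ` is a character of `K` of `2`-power order and of conductor `∏_{v ∈ T} v`, as a function on `𝓞` (`K` has class
number one): a primitive character modulo the product of the `v ∈ T`, trivial on the units, and zero on the `x` which
are not prime to the conductor. -/
structure IsCharacter (T : Finset (HeightOneSpectrum (𝓞 K))) (χ : 𝓞 K → ℂ) : Prop where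
  one : χ 1 = 1
  mul : ∀ x y, χ (x * y) = χ x * χ y
  zero : ∀ x, χ x = 0 ↔ ∃ v ∈ T, x ∈ v.asIdeal
  periodic : ∀ x y, (∀ v ∈ T, x - y ∈ v.asIdeal) → χ x = χ y
  units : ∀ u, IsUnit u → χ u = 1
  primitive : ∀ v ∈ T, ∃ x, (∀ v' ∈ T, v' ≠ v → x - 1 ∈ v'.asIdeal) ∧ χ x ≠ 0 ∧ χ x ≠ 1
  order : ∃ k : ℕ, ∀ x, χ x ≠ 0 → χ x ^ 2 ^ k = 1

section extension

variable (F : Type) [Field F] [NumberField F] [Algebra K F]

/-- The places `u` of `F` above `v`. -/
def Above (v : HeightOneSpectrum (𝓞 K)) : Type :=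
  {u : HeightOneSpectrum (𝓞 F) // u.asIdeal.comap (algebraMap (𝓞 K) (𝓞 F)) = v.asIdeal}

/-- `F/K` is a finite Galois extension of `2`-power degree, unramified outside of the admissible places of `K`, and the
places `v ∣ 2(4a³ + 27b²)` split completely in `F` (there is an embedding of `F` in `K_v`). -/
structure IsTwoExtension (a b : 𝓞 K) : Prop where
  galois : IsGalois K F
  degree : ∃ k : ℕ, Module.finrank K F = 2 ^ k
  split : ∀ v : HeightOneSpectrum (𝓞 K), 2 * (4 * a ^ 3 + 27 * b ^ 2) ∈ v.asIdeal →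
    Nonempty (F →ₐ[K] v.adicCompletion K)
  unramified : ∀ v : HeightOneSpectrum (𝓞 K), 2 * (4 * a ^ 3 + 27 * b ^ 2) ∉ v.asIdeal →
    ¬ Admissible a b v → ∀ u : Above F v, ∀ x : K,
      u.1.valuation F (algebraMap K F x) = v.valuation K x

/-- `F` is the class field of a group of characters of `K` of `2`-power order, of conductors which are products of
different admissible places: `Gal(F/K)` is abelian, and for each of its characters `ψ` there is such a character `χ` of
`K`, of conductor `∏_{v ∈ T} v`, with the law of reciprocity: `ψ(t) = χ(v)` for all places `v ∉ T` of `K` and all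
Frobenius automorphisms `t ∈ Gal(F/K)` at places of `F` above `v`. -/
structure IsClassField [IsPrincipalIdealRing (𝓞 K)] (a b : 𝓞 K) : Prop where
  abelian : ∀ s t : F ≃ₐ[K] F, s * t = t * s
  reciprocity : ∀ ψ : (F ≃ₐ[K] F) →* ℂ, ∃ (T : Finset (HeightOneSpectrum (𝓞 K))) (χ : 𝓞 K → ℂ),
    IsCharacter T χ ∧ (∀ v ∈ T, Admissible a b v) ∧
    ∀ v : HeightOneSpectrum (𝓞 K), v ∉ T → ∀ (u : Above F v) (t : F ≃ₐ[K] F),
      (∀ x : 𝓞 F, t • x - x ^ Ideal.absNorm v.asIdeal ∈ u.1.asIdeal) →
      ψ t = χ (Submodule.IsPrincipal.generator v.asIdeal)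

end extension

/-- The set `P` of elements of `𝓞` has positive upper density in comparison with the prime numbers: there is a `d > 0` such that
for infinitely many `N` at least `d π(N)` elements of `P` have a norm at most `N`. -/
def PositiveUpperDensity (P : Set (𝓞 K)) : Prop :=
  ∃ d : ℝ, 0 < d ∧ ∃ᶠ N : ℕ in atTop,
    d * Nat.primeCounting N ≤ {π | π ∈ P ∧ Ideal.absNorm (Ideal.span {π}) ≤ N}.ncard

end field

/-- The curve `y² = x³ + a x + b`. -/
def curve {R : Type} [CommRing R] (a b : R) : WeierstrassCurve R := ⟨0, 0, 0, a, b⟩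

section conj

variable {F : Type} [Field F] [NumberField F]

/-- `H` is equal to `L(E/F, s)` for `Re s > 2` and it is meromorphic at the real points of `[1, 2]` -/
def Continues (E : WeierstrassCurve F) (H : ℂ → ℂ) : Prop :=
  (∀ x : ℝ, 1 ≤ x → x ≤ 2 → MeromorphicAt H (x : ℂ)) ∧ ∀ s : ℂ, 2 < s.re → H s = E.LSeries s

/-- the rank of the group `E(F)` -/
noncomputable def rank (E : WeierstrassCurve F) [DecidableEq F] : ℕ :=
  Module.finrank ℤ E.toAffine.Point

/-- The rank form of the conjecture of Birch and Swinnerton-Dyer for `E/F`, with both sides zero: `L(E/F, s)` has a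
meromorphic continuation to `ℂ`, and every continuation has the order `0` at `s = 1`, which is the rank of
`E(F)`; and `E(F)` is finite, of odd order. -/
structure RankZero (E : WeierstrassCurve F) [DecidableEq F] : Prop where
  exists_continuation : ∃ H : ℂ → ℂ, MeromorphicOn H Set.univ ∧ AnalyticAt ℂ H 1 ∧
    Continues E H ∧ analyticOrderAt H 1 = (rank E : ℕ∞)
  order : ∀ H : ℂ → ℂ, Continues E H → meromorphicOrderAt H 1 = ((rank E : ℤ) : WithTop ℤ) ∧
    (AnalyticAt ℂ H 1 → analyticOrderAt H 1 = (rank E : ℕ∞))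
  rank_zero : rank E = 0
  finite : Finite E.toAffine.Point
  odd : Odd (Nat.card E.toAffine.Point)

end conj

lemma coef_eq {a e a' e' : ℂ} (h : (1 - Polynomial.C a * Polynomial.X +
    Polynomial.C e * Polynomial.X ^ 2 : Polynomial ℂ) = 1 - Polynomial.C a' * Polynomial.X +
      Polynomial.C e' * Polynomial.X ^ 2) : a = a' ∧ e = e' := by
  have h1 := congrArg (Polynomial.eval 1) h
  have h2 := congrArg (Polynomial.eval (-1)) h
  simp only [Polynomial.eval_add, Polynomial.eval_sub, Polynomial.eval_one, Polynomial.eval_mul,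
    Polynomial.eval_C, Polynomial.eval_X, Polynomial.eval_pow] at h1 h2
  constructor
  · linear_combination (1 / 2 : ℂ) * h2 - (1 / 2 : ℂ) * h1
  · linear_combination (1 / 2 : ℂ) * h1 + (1 / 2 : ℂ) * h2

section proof

variable {K : Type} [Field K] [NumberField K]

lemma nf_of {a b n : 𝓞 K} {c : Ideal (𝓞 K) → ℂ} (hE : IsNewformOf (curve (a : K) (b : K)) n c) :
    T9h30.BT.IsNF (T9h30.BT.cv (a : K) (b : K)) n c := by
  intro v
  have h1 := hE v
  have h2 := W189.NF.localPolynomial_eq (v.adicCompletionIntegers K)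
    ((curve (a : K) (b : K)).baseChange (v.adicCompletion K))
  rw [h2] at h1
  have h3 : W189.NF.aLoc (v.adicCompletionIntegers K)
      ((curve (a : K) (b : K)).baseChange (v.adicCompletion K)) =
      W189.NF.aV (T9h30.BT.cv (a : K) (b : K)) v := rfl
  have h4 : W189.NF.eLoc (v.adicCompletionIntegers K)
      ((curve (a : K) (b : K)).baseChange (v.adicCompletion K)) =
      W189.NF.eV (T9h30.BT.cv (a : K) (b : K)) v := rfl
  rw [h3, h4, Polynomial.map_add, Polynomial.map_sub, Polynomial.map_one, Polynomial.map_mul,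
    Polynomial.map_C, Polynomial.map_X, Polynomial.map_mul, Polynomial.map_C, Polynomial.map_pow,
    Polynomial.map_X] at h1
  obtain ⟨c1, c2⟩ := coef_eq h1
  rw [eq_intCast] at c1 c2
  refine ⟨c1.symm, fun hn => ?_, fun hn => ?_⟩
  · rw [if_pos hn] at c2
    exact_mod_cast c2
  · rw [if_neg hn] at c2
    exact_mod_cast c2

lemma adm_of {a b n : 𝓞 K} {c : Ideal (𝓞 K) → ℂ}
    (hNF : T9h30.BT.IsNF (T9h30.BT.cv (a : K) (b : K)) n c) (v : HeightOneSpectrum (𝓞 K))
    (hv : Admissible a b v) :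
    (2 : 𝓞 K) ∉ v.asIdeal ∧ n ∉ v.asIdeal ∧ ∃ m : ℤ, c v.asIdeal = m ∧ m % 2 = 1 := by
  have hbad : n ∉ v.asIdeal ∧
      c v.asIdeal = (Ideal.absNorm v.asIdeal : ℤ) - T9h30.BT.pp a b v := by
    obtain ⟨h1, h2⟩ := T9h30.BT.loc_int a b v hv.1
    obtain ⟨g1, g2, g3⟩ := hNF v
    refine ⟨fun hn => ?_, ?_⟩
    · have h3 := g2 hn
      rw [h2] at h3
      have := T9h30.BT.one_lt_nrm v
      omega
    · rw [g1, h1]
      push_cast
      rfl
  have h2 : (2 : 𝓞 K) ∉ v.asIdeal := fun h2 => hv.1 (v.asIdeal.mul_mem_right _ h2)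
  refine ⟨h2, hbad.1, (Ideal.absNorm v.asIdeal : ℤ) - T9h30.BT.pp a b v, ?_, ?_⟩
  · rw [hbad.2]
    push_cast
    ring
  · obtain ⟨k, hk⟩ := K4H55.BD.pv_even (a := a) (b := b) h2 hv.2
    have hk' : T9h30.BT.pp a b v = 2 * k := hk
    have h6 := K4H55.BM.norm_odd h2
    rw [Nat.odd_iff] at h6
    omega

omit [NumberField K] in
/-- the two sides -/
theorem rankZero_of {F : Type} [Field F] [DecidableEq F] [NumberField F] [Algebra K F] {a b : 𝓞 K}
    (h : (Finite (T9h30.BT.cF F a b).toAffine.Point ∧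
      Odd (Nat.card (T9h30.BT.cF F a b).toAffine.Point)) ∧
      ∃ H : ℂ → ℂ, MeromorphicOn H Set.univ ∧ AnalyticAt ℂ H 1 ∧ H 1 ≠ 0 ∧
        ∀ s : ℂ, 2 < s.re → H s = (T9h30.BT.cF F a b).LSeries s) :
    RankZero ((curve (a : K) (b : K)).baseChange F) := by
  have hcF : (curve (a : K) (b : K)).baseChange F = T9h30.BT.cF F a b := by
    unfold curve T9h30.BT.cF T9h30.BT.cv WeierstrassCurve.baseChange WeierstrassCurve.map
    simp
  rw [hcF]
  obtain ⟨⟨h1, h2⟩, H₀, hH1, hH2, hH3, hH4⟩ := h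
  have hrank : rank (T9h30.BT.cF F a b) = 0 :=
    Module.finrank_eq_zero_of_rank_eq_zero (rank_eq_zero_iff.2 fun x =>
      ⟨Nat.card (T9h30.BT.cF F a b).toAffine.Point,
        by exact_mod_cast Nat.card_pos.ne', by
          rw [natCast_zsmul]
          exact card_nsmul_eq_zero'⟩)
  have hord : meromorphicOrderAt H₀ 1 = 0 := by
    rw [hH2.meromorphicOrderAt_eq, analyticOrderAt_eq_zero.2 (Or.inr hH3)]
    rfl
  refine ⟨⟨H₀, hH1, hH2, ⟨fun x _ _ => hH1 _ (Set.mem_univ _), fun s hs => hH4 s hs⟩, ?_⟩,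
    fun H hH => ?_, hrank, h1, h2⟩
  · rw [hrank, analyticOrderAt_eq_zero.2 (Or.inr hH3)]
    rfl
  · have h1 := T9h30.BT.order_same hH1 hH.1 (fun s hs => by
      rw [hH.2 s hs]
      exact (hH4 s hs).symm)
    rw [hord] at h1
    refine ⟨by rw [hrank]; exact h1, fun hA => ?_⟩
    rw [hrank]
    have h2 := hA.meromorphicOrderAt_eq
    rw [h1] at h2
    have h3 : analyticOrderAt H 1 ≠ ⊤ := by
      intro h
      rw [h] at h2
      exact WithTop.coe_ne_top h2
    obtain ⟨m, hm⟩ := WithTop.ne_top_iff_exists.1 h3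
    rw [← hm] at h2 ⊢
    have h4 : ((0 : ℤ) : WithTop ℤ) = ((m : ℤ) : WithTop ℤ) := h2
    have h5 : m = 0 := by exact_mod_cast h4.symm
    rw [h5]
    rfl

end proof

/-- **The rank conjecture over multiquadratic extensions.** Let `K` be an imaginary quadratic field of
class number one, and let `E : y² = x³ + a x + b` be an elliptic curve over `K` with the newform `f`; suppose that
`E(K)[2] = 0`, that the `2`-Selmer group of `E/K` is trivial, and that the central value is odd.
(1) Let `F/K` be a Galois extension of `2`-power degree, unramified outside of the admissible places, in which the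
places `v ∣ 2(4a³ + 27b²)` split completely. If `t² = 1` for all `t ∈ Gal(F/K)`, or if `F` is the class field of
characters of `K` whose conductors are products of different admissible places, then `L(E/F, s)` has a meromorphic
continuation to `ℂ`, `ord_{s = 1} L(E/F, s) = rank E(F) = 0`, and `E(F)` is finite of odd order.
(2) There is a set `P` of prime elements of `𝓞`, no two of them associated, of positive upper density, such that
this is so for all the fields `F` generated over `K` by square roots of products of two elements of `P`. -/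
theorem result (K : Type) [Field K] [NumberField K] [IsPrincipalIdealRing (𝓞 K)] (σ : K →+* ℂ)
    (δ : K) (hK : IsFieldData K σ δ) (a b : 𝓞 K) (hΔ : 4 * a ^ 3 + 27 * b ^ 2 ≠ 0) (n : 𝓞 K)
    (c : Ideal (𝓞 K) → ℂ) (hf : IsNewform σ δ n c) (hE : IsNewformOf (curve (a : K) (b : K)) n c)
    (hodd : OddCentralValue σ δ n c)
    (L : Type) [Field L] [NumberField L] [Algebra K L] (θ : L)
    (hθ : IsCubicField a b θ) (hS : TrivialSelmer a b θ) :
    (∀ (F : Type) [Field F] [DecidableEq F] [NumberField F] [Algebra K F],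
      IsTwoExtension F a b → (∀ t : F ≃ₐ[K] F, t * t = 1) ∨ IsClassField F a b →
        RankZero ((curve (a : K) (b : K)).baseChange F)) ∧
    ∃ P : Set (𝓞 K), PositiveUpperDensity P ∧ (∀ π ∈ P, Prime π) ∧
      (∀ π ∈ P, ∀ π' ∈ P, Associated π π' → π = π') ∧
      ∀ (F : Type) [Field F] [DecidableEq F] [NumberField F] [Algebra K F],
        IntermediateField.adjoin K {x : F | ∃ π ∈ P, ∃ π' ∈ P,
          x ^ 2 = algebraMap K F ((π * π' : 𝓞 K) : K)} = ⊤ →
        RankZero ((curve (a : K) (b : K)).baseChange F) := by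
  have h : K4H55.BI.IQ K σ δ := ⟨hK.quadratic, hK.imaginary, inferInstance, hK.different⟩
  have hf' : K4H55.BI.BF σ δ n c := ⟨hf.level, hf.zero, hf.one, hf.bound, hf.good, hf.bad,
    hf.invariant, hf.fricke⟩
  have hcub : K4H55.BD.Cub K θ := by
    refine ⟨fun p q r h0 => ?_, fun β => ?_⟩
    · obtain ⟨t, ht, hu⟩ := hθ.basis 0
      have h1 := hu (p, q, r) h0.symm
      have h2 := hu (0, 0, 0) (by simp)
      have h3 := h1.trans h2.symm
      simp only [Prod.mk.injEq] at h3
      exact h3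
    · obtain ⟨t, ht, -⟩ := hθ.basis β
      exact ⟨t.1, t.2.1, t.2.2, ht⟩
  have hNF := nf_of hE
  obtain ⟨ω, hω', hω⟩ := hf.cyclic
  obtain ⟨z, hz, hzo⟩ := hodd
  have hz0 : z ≠ 0 := by
    have := hzo 0 (AddSubgroup.zero_mem _)
    rwa [mul_zero] at this
  -- the values of the twists
  have hval : ∀ (T : Finset (HeightOneSpectrum (𝓞 K))) (χ : 𝓞 K → ℂ), K4H55.CX.CH T χ →
      (∀ v ∈ T, Admissible a b v) → ∃ G : ℂ → ℂ, Differentiable ℂ G ∧
      (∀ s : ℂ, 2 < s.re → HasProd (K4H55.CX.efx n c χ s) (G s)) ∧ G 1 ≠ 0 := by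
    intro T χ hχ hT
    obtain ⟨G, τ, x, k, g1, g2, g3, g4, g5, g6⟩ := K4H55.CX.chr_unit h hf' hχ
      (fun v hv => adm_of hNF v (hT v hv)) hz hω hω' hzo
    refine ⟨G, g1, g2, K4H55.CX.ne_of_unit (m := 1) (τ := τ) (k := k) g5
      (mul_ne_zero (K4H55.CX.A_ne h) hz0) ?_⟩
    rw [pow_one]
    exact g6
  obtain ⟨ω₀, t₀, m₀, hB⟩ := T9h30.BT.exists_bs h
  -- multiquadratic fields
  have hmq : ∀ (F : Type) [Field F] [DecidableEq F] [NumberField F] [Algebra K F] [IsGalois K F],
      (∀ t : F ≃ₐ[K] F, t * t = 1) →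
      (∀ v : HeightOneSpectrum (𝓞 K), 2 * (4 * a ^ 3 + 27 * b ^ 2) ∈ v.asIdeal →
        Nonempty (F →ₐ[K] v.adicCompletion K)) →
      (∀ v : HeightOneSpectrum (𝓞 K), 2 * (4 * a ^ 3 + 27 * b ^ 2) ∉ v.asIdeal →
        ¬ (∀ x : 𝓞 K, x ^ 3 + a * x + b ∉ v.asIdeal) → ∀ u : T9h30.BT.Ab F v, ∀ x : K,
          u.1.valuation F (algebraMap K F x) = v.valuation K x) →
      RankZero ((curve (a : K) (b : K)).baseChange F) := by
    intro F _ _ _ _ _ h2 hsp hun
    refine rankZero_of (T9h30.BT.quad_field hB hΔ hNF hcub hθ.root hS h2 hsp hun fun α hα _ => ?_)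
    have hfin := T9h30.BT.qf_fin hα.ne
    refine hval _ _ (T9h30.BT.ch_of hfin (N := 1) (by rw [pow_one]; exact T9h30.BT.qf_sq α)
      hα.unit) fun v hv => ?_
    exact hα.adm v (T9h30.BT.qf_sub ((T9h30.BT.mem_sp hfin v).1 hv))
  refine ⟨fun F _ _ _ _ hF hcl => ?_, ?_⟩
  · have hG := hF.galois
    rcases hcl with h2 | hcl
    · refine hmq F h2 hF.split fun v h3 h4 u x => ?_
      exact hF.unramified v h3 (fun h5 => h4 h5.2) ⟨u.1, T9h30.BT.lo_iff.1 u.2⟩ x
    · obtain ⟨k, hk⟩ := hF.degree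
      have hrec : ∀ ψ : (F ≃ₐ[K] F) →* ℂˣ, ∃ (T : Finset (HeightOneSpectrum (𝓞 K))) (χ : 𝓞 K → ℂ),
          IsCharacter T χ ∧ (∀ v ∈ T, Admissible a b v) ∧
          ∀ u : HeightOneSpectrum (𝓞 F), T9h30.BT.lo (K := K) u ∉ T → ∀ t : F ≃ₐ[K] F,
            T9h30.BT.Frb u t → ((ψ t : ℂˣ) : ℂ) = χ (K4H55.BI.gen (T9h30.BT.lo (K := K) u)) := by
        intro ψ
        obtain ⟨T, χ, h1, h2, h3⟩ := hcl.reciprocity ((Units.coeHom ℂ).comp ψ)
        exact ⟨T, χ, h1, h2, fun u hu t ht => h3 _ hu ⟨u, rfl⟩ t ht⟩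
      choose T χ hχ hT hlaw using hrec
      have hR : T9h30.BT.Rec T χ := by
        refine ⟨fun ψ x => ?_, hlaw⟩
        by_cases h0 : χ ψ x = 0
        · exact Or.inr h0
        · obtain ⟨k, hk⟩ := (hχ ψ).order
          exact Or.inl (Complex.norm_eq_one_of_pow_eq_one (hk x h0) (by positivity))
      refine rankZero_of (T9h30.BT.one_field hΔ hNF hcub hθ.root hS hk hF.split
        (fun v h3 h4 u x => hF.unramified v h3 (fun h5 => h4 h5.2) ⟨u.1, T9h30.BT.lo_iff.1 u.2⟩ x)
        hcl.abelian hR fun ψ => ?_)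
      have h1 := hχ ψ
      exact hval _ _ ⟨h1.one, h1.mul, h1.zero, h1.periodic, h1.units, h1.primitive, h1.order⟩ (hT ψ)
  · -- the set of primes
    classical
    set D : 𝓞 K := 4 * a ^ 3 + 27 * b ^ 2 with hD
    have hΔ' : (4 : K) * (a : K) ^ 3 + 27 * (b : K) ^ 2 ≠ 0 := by
      have h1 : algebraMap (𝓞 K) K (4 * a ^ 3 + 27 * b ^ 2) ≠ 0 := by
        rwa [Ne, FaithfulSMul.algebraMap_eq_zero_iff]
      intro h2
      apply h1
      rw [map_add, map_mul, map_mul, map_pow, map_pow, map_ofNat, map_ofNat]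
      exact h2
    obtain ⟨g, hg⟩ := T9h30.BT.exists_move hΔ' (K4H55.CX.cub_noroot hcub hθ.root)
    obtain ⟨d, hd, hdX⟩ := T9h30.BT.dens_adm (K := K) (J := Unit) (a := fun _ => a) (b := fun _ => b)
      (fun _ => hΔ) (g := g) (fun _ => hg)
    have hm0 : 4 * (2 * D) ≠ 0 := by
      have : (4 : 𝓞 K) = 2 * 2 := by norm_num
      rw [this]
      exact mul_ne_zero (mul_ne_zero two_ne_zero two_ne_zero) (mul_ne_zero two_ne_zero hΔ)
    have hfin : Finite (𝓞 K ⧸ Ideal.span {4 * (2 * D)}) := by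
      refine Ideal.finiteQuotientOfFreeOfNeBot _ ?_
      rwa [Ne, Ideal.span_singleton_eq_bot]
    obtain ⟨r, d', hd', hr⟩ := T9h30.BT.class_adm hd hdX
      (fun v => Ideal.Quotient.mk (Ideal.span {4 * (2 * D)}) (K4H55.BI.gen v))
    set V : Set (HeightOneSpectrum (𝓞 K)) := {v | v ∈ {v : HeightOneSpectrum (𝓞 K) | ∀ _i : Unit,
      2 * (4 * a ^ 3 + 27 * b ^ 2) ∉ v.asIdeal ∧ ∀ x : 𝓞 K, x ^ 3 + a * x + b ∉ v.asIdeal} ∧
      Ideal.Quotient.mk (Ideal.span {4 * (2 * D)}) (K4H55.BI.gen v) = r} with hV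
    have hVadm : ∀ v ∈ V, 2 * D ∉ v.asIdeal ∧ ∀ x : 𝓞 K, x ^ 3 + a * x + b ∉ v.asIdeal :=
      fun v hv => hv.1 ()
    have hVc : ∀ v ∈ V, ∀ w ∈ V, 4 * (2 * D) ∣ K4H55.BI.gen v - K4H55.BI.gen w := by
      intro v hv w hw
      rw [← Ideal.mem_span_singleton, ← Ideal.Quotient.eq]
      exact hv.2.trans hw.2.symm
    refine ⟨K4H55.BI.gen '' V, ⟨d', hd', ?_⟩, ?_, ?_, ?_⟩
    · refine hr.mono fun N hN => ?_
      have e : {π | π ∈ K4H55.BI.gen '' V ∧ Ideal.absNorm (Ideal.span {π}) ≤ N} =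
          K4H55.BI.gen '' {v | Ideal.absNorm v.asIdeal ≤ N ∧ v ∈ V} := by
        ext π
        constructor
        · rintro ⟨⟨v, hv, rfl⟩, h1⟩
          rw [K4H55.BI.gen_span] at h1
          exact ⟨v, ⟨h1, hv⟩, rfl⟩
        · rintro ⟨v, ⟨h1, hv⟩, rfl⟩
          refine ⟨⟨v, hv, rfl⟩, ?_⟩
          rwa [K4H55.BI.gen_span]
      rw [e, Set.ncard_image_of_injective _ K4H55.BI.gen_inj]
      exact hN
    · rintro _ ⟨v, -, rfl⟩
      exact K4H55.BI.gen_prime v
    · rintro _ ⟨v, -, rfl⟩ _ ⟨w, -, rfl⟩ h1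
      rw [K4H55.BI.gen_na h1.dvd]
    · intro F _ _ _ _ hF
      set A : Set (𝓞 K) := {α | ∃ v ∈ V, ∃ w ∈ V, α = K4H55.BI.gen v * K4H55.BI.gen w} with hA
      have hrts : T9h30.BT.rts F A = {x : F | ∃ π ∈ K4H55.BI.gen '' V, ∃ π' ∈ K4H55.BI.gen '' V,
          x ^ 2 = algebraMap K F ((π * π' : 𝓞 K) : K)} := by
        ext x
        constructor
        · rintro ⟨_, ⟨v, hv, w, hw, rfl⟩, hx⟩
          exact ⟨_, ⟨v, hv, rfl⟩, _, ⟨w, hw, rfl⟩, hx⟩
        · rintro ⟨_, ⟨v, hv, rfl⟩, _, ⟨w, hw, rfl⟩, hx⟩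
          exact ⟨_, ⟨v, hv, w, hw, rfl⟩, hx⟩
      rw [← hrts] at hF
      have hgs : T9h30.BT.Gs A D {v | 2 * (4 * a ^ 3 + 27 * b ^ 2) ∉ v.asIdeal ∧
          ∀ x : 𝓞 K, x ^ 3 + a * x + b ∉ v.asIdeal} := by
        refine ⟨?_, ?_⟩
        · rintro _ ⟨v, hv, w, hw, rfl⟩
          refine ⟨K4H55.BI.gen w, ?_, fun v' h1 h2 => ?_⟩
          · have e : K4H55.BI.gen v * K4H55.BI.gen w - K4H55.BI.gen w ^ 2 =
                (K4H55.BI.gen v - K4H55.BI.gen w) * K4H55.BI.gen w := by ring
            rw [e]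
            exact (hVc v hv w hw).mul_right _
          · have h3 := K4H55.BI.gen_na (K4H55.BI.gen_dvd.2 h2)
            rw [h3] at h1
            exact (hVadm w hw).1 h1
        · rintro _ ⟨v, hv, w, hw, rfl⟩ v' h1
          rcases v'.isPrime.mem_or_mem h1 with h2 | h2
          · have h3 := K4H55.BI.gen_na (K4H55.BI.gen_dvd.2 h2)
            rw [h3]
            exact hVadm v hv
          · have h3 := K4H55.BI.gen_na (K4H55.BI.gen_dvd.2 h2)
            rw [h3]
            exact hVadm w hw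
      have hG := T9h30.BT.mq_galois hF
      refine hmq F (T9h30.BT.mq_sq hF) (fun v hv => hgs.split hF hv) fun v h3 h4 u x => ?_
      exact hgs.unr hF h3 (fun h5 => h4 h5.2) u x

end Pool.Agent.Results.MP_cd906c_nt.AbelianTwoExtensions
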