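import Pool.Agent.Results.MP_03e5d0_nt.FullClassX49
import Pool.Agent.T9h30.MQ.LS
import Pool.Agent.T9h30.MQ.Fin
import Pool.Agent.T9h30.MQ.Quad

/-!
# Order of vanishing and rank of the twists of `X_0(49)` over multiquadratic fields, with exact density

The class consists of the squarefree `D ≥ 1` with all prime factors `≡ 1 mod 4`; `E_D` is the quadratic
twist by `D` of `X_0(49) : y² + x y = x³ - x² - 2 x - 1`. `F` is any field generated over `ℚ` by finitely
many square roots of numbers of the class, of any degree `[F : ℚ] = 2^n`: any multiquadratic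
number field in which only primes `≡ 1 mod 4` are ramified. `Good F D` says: for all the `M` of the class which are
squares in `F` the twist `E_{M D}` (by the squarefree part of `M D`) has finitely many rational points and
`Ш(E_{M D}/ℚ)[2] = 0`. Then:
* if `Good F D` then `E_D(F)` is finite, the `L`-function of `E_D` over `F` has an entire continuation
  and it does not vanish at `s = 1`: order and rank are both zero;
* for every multiquadratic `F` and every `D` of the class, exactly the proportion `c ^ [F : ℚ]` of all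
  the `d` of the class satisfies `Good F (D d)`, `c = ∏_{i ≥ 0} (1 - 2^{-(2i+1)}) = 0.4194...`; for `D = 1`
  this is the density of the curves `E_d` that are good over `F`;
* `Good (F(√d)) D` holds if and only if `Good F D` and `Good F (D d)`. So if `E_D` is good over `F` then it
  is good over `F(√d)` for exactly the proportion `c ^ [F : ℚ]` of the `d` of the class, and so on: the
  fixed curve `E_D` has order and rank zero over infinite towers of multiquadratic fields, where in each
  step a positive proportion of all the possible next fields is permitted.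

The new parts (in `Pool/Agent/T9h30/MQ`): the decomposition of the primes in `F`, including the ramified
ones, in terms of the quadratic symbols, the identity of the Euler factors of `E_D` over `F` (also at the
primes dividing `D` and ramified in `F`, where `E_D` acquires good reduction) with the product of those of
the twists over `ℚ`, and the decomposition of `E_D(F)`. The law over `ℚ` is the starting file
`MP_03e5d0_nt/FullClassX49`.
-/

set_option autoImplicit false

open Filter Topology

namespace Pool.Agent.Results.MP_cd906c_nt.MultiquadraticX49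

open Pool.Agent.Results.MP_4a9ea6_nt.TwoPartTwistsX49 (twist)
open Pool.Agent.Results.MP_92892c_nt.FullClassTwoPartX49 (Family RankZeroShaTwo num)
open Pool.Agent.Results.MP_03e5d0_nt.FullClassX49 (tw c)

/-- `F` is generated over `ℚ` by square roots of squarefree numbers with all prime factors
`≡ 1 mod 4` -/
def Multiquadratic (F : Type) [Field F] [NumberField F] : Prop :=
  IntermediateField.adjoin ℚ {x : F | ∃ M : ℕ, Family M ∧ x ^ 2 = (M : F)} = ⊤

/-- the twist by `D` of `X_0(49)` over `F`, with the equation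
`y² + x y = x³ - (3 D + 1)/4 x² - 2 D² x - D³` -/
abbrev curve (F : Type) [Field F] (D : ℕ) : WeierstrassCurve F := (twist D).map (Int.castRingHom F)

/-- the order of vanishing at `s = 1` and the rank are zero: `W(F)` is finite, and the `L`-function has an
entire continuation which does not vanish at `s = 1` -/
def RankZero (F : Type) [Field F] [NumberField F] (W : WeierstrassCurve F) : Prop :=
  Finite W.toAffine.Point ∧
    ∃ Λ : ℂ → ℂ, Differentiable ℂ Λ ∧ (∀ s : ℂ, 2 < s.re → Λ s = W.LSeries s) ∧ Λ 1 ≠ 0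

/-- for all the `M` of the class which are squares in `F`, the twist by `M D` of `X_0(49)` over `ℚ` has
finitely many rational points and no element of order two in `Ш` -/
def Good (F : Type) [Field F] (D : ℕ) : Prop :=
  ∀ M : ℕ, Family M → (∃ x : F, x ^ 2 = (M : F)) → RankZeroShaTwo (tw M D)

section proof

open Pool.Agent.T9h30.MQ (Ms Gen finite_Ms card_Ms)
open Pool.Agent.Results.MP_03e5d0_nt.FullClassX49 (Pattern AnalyticRankZero sel_det an_of)

lemma good_iff {F : Type} [Field F] [NumberField F] (D : ℕ) :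
    Good F D ↔ ∀ M : Ms F, RankZeroShaTwo (tw M D) :=
  ⟨fun h M => h M M.2.1 M.2.2, fun h M hM hx => h ⟨M, hM, hx⟩⟩

lemma an_of' {D : ℕ} (h : Family D) (hs : RankZeroShaTwo D) : AnalyticRankZero D :=
  an_of h ((sel_det h).1 hs)

lemma curve_eq {F : Type} [Field F] {D : ℕ} (h : Family D) :
    curve F D = Pool.Agent.Y698.EX F ((D / 4 : ℕ) : F) := by
  have h1 : D = 1 + 4 * (D / 4) := by
    have := Pool.Agent.T9h30.MQ.Ad.mod4 h
    omega
  exact Pool.Agent.Y698.twZ_map h1 F

lemma curve_base {F : Type} [Field F] [NumberField F] (D : ℕ) :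
    curve F D = (curve ℚ D).baseChange F := by
  unfold curve WeierstrassCurve.baseChange
  rw [WeierstrassCurve.map_map]
  congr 1
  exact RingHom.ext_int _ _

lemma eqn_fin {W : WeierstrassCurve ℚ} (hΔ : W.Δ ≠ 0) (h : Finite W.toAffine.Point) :
    {Q : ℚ × ℚ | W.toAffine.Equation Q.1 Q.2}.Finite := by
  have h1 : ∀ Q : {Q : ℚ × ℚ // W.toAffine.Equation Q.1 Q.2}, W.toAffine.Nonsingular Q.1.1 Q.1.2 :=
    fun Q => (WeierstrassCurve.Affine.equation_iff_nonsingular_of_Δ_ne_zero hΔ).1 Q.2
  have h2 : Function.Injective (fun Q : {Q : ℚ × ℚ // W.toAffine.Equation Q.1 Q.2} =>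
      (WeierstrassCurve.Affine.Point.some Q.1.1 Q.1.2 (h1 Q) : W.toAffine.Point)) := by
    intro Q R hQR
    obtain ⟨g1, g2⟩ := WeierstrassCurve.Affine.Point.some.inj hQR
    exact Subtype.ext (Prod.ext g1 g2)
  exact Finite.of_injective _ h2

lemma b_tw {D : ℕ} (h : Family D) : (curve ℚ D).b₂ = -3 * D ∧ (curve ℚ D).b₄ = -4 * D ^ 2 ∧
    (curve ℚ D).b₆ = -4 * D ^ 3 ∧ (curve ℚ D).Δ = -343 * D ^ 6 := by
  rw [curve_eq h]
  have h1 : (D : ℚ) = 1 + 4 * ((D / 4 : ℕ) : ℚ) := by
    have h1 : D = 1 + 4 * (D / 4) := by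
      have := Pool.Agent.T9h30.MQ.Ad.mod4 h
      omega
    exact_mod_cast h1
  rw [Pool.Agent.Y698.EX_Δ, h1]
  unfold Pool.Agent.Y698.EX WeierstrassCurve.b₆ WeierstrassCurve.b₄ WeierstrassCurve.b₂
  refine ⟨?_, ?_, ?_, rfl⟩ <;> ring

/-- the two ranks are zero -/
theorem rankZero {F : Type} [Field F] [NumberField F] (hF : Gen F) {D : ℕ} (hD : Family D)
    (h : ∀ M : Ms F, RankZeroShaTwo (tw M D)) : RankZero F (curve F D) := by
  classical
  have hfin := finite_Ms hF
  let _ : Fintype (Ms F) := Fintype.ofFinite _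
  have hA : ∀ M : Ms F, Family (tw M D) := fun M => Pool.Agent.T9h30.MQ.Ad.tw M.2.1 hD
  constructor
  · rw [curve_base]
    have hg : ∀ M : Ms F, ((Nat.gcd M D : ℕ) : ℚ) ≠ 0 := fun M => Nat.cast_ne_zero.2 M.2.1.gcd_ne
    have hrel : ∀ M : Ms F, ((tw M D : ℕ) : ℚ) * (Nat.gcd M D : ℕ) ^ 2 = (M : ℕ) * D := by
      intro M
      have := Pool.Agent.T9h30.MQ.tw_mul M D
      exact_mod_cast this
    have hq : ∀ M : Ms F, ((tw M D : ℕ) : ℚ) = ((M : ℕ) : ℚ) * (1 / ((Nat.gcd M D : ℕ) : ℚ)) ^ 2 * D := by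
      intro M
      have h1 := hrel M
      have h2 := hg M
      field_simp
      linear_combination h1
    refine Pool.Agent.T9h30.MQ.finite_points (curve ℚ D) hF (fun M => curve ℚ (tw M D))
      (fun M => ((M : ℕ) : ℚ) * (1 / ((Nat.gcd M D : ℕ) : ℚ)) ^ 2)
      (fun M => 1 / ((Nat.gcd M D : ℕ) : ℚ)) (fun M => rfl) (fun M => one_div_ne_zero (hg M))
      (fun M => ?_) (fun M => ?_) (fun M => ?_) (fun M => ?_)
    · rw [(b_tw (hA M)).1, (b_tw hD).1, hq]
      ring
    · rw [(b_tw (hA M)).2.1, (b_tw hD).2.1, hq]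
      ring
    · rw [(b_tw (hA M)).2.2.1, (b_tw hD).2.2.1, hq]
      ring
    · refine eqn_fin ?_ (h M).1
      rw [(b_tw (hA M)).2.2.2]
      exact mul_ne_zero (by norm_num) (pow_ne_zero 6 (Nat.cast_ne_zero.2
        (Pool.Agent.T9h30.MQ.Ad.ne (hA M))))
  · choose Λ g1 g2 g3 using fun M : Ms F => an_of' (hA M) (h M)
    refine ⟨fun s => ∏ M : Ms F, Λ M s, Differentiable.fun_finsetProd fun M _ => g1 M, fun s hs => ?_,
      Finset.prod_ne_zero_iff.2 fun M _ => g3 M⟩
    rw [curve_eq hD, Pool.Agent.T9h30.MQ.LS_prod hF hD hs]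
    refine Finset.prod_congr rfl fun M _ => ?_
    rw [g2 M s hs]
    exact congrArg (fun W : WeierstrassCurve ℚ => W.LSeries s) (curve_eq (F := ℚ) (hA M))

theorem density {F : Type} [Field F] [NumberField F] (hF : Gen F) {D : ℕ} (hD : Family D) :
    Tendsto (fun X : ℕ => (num (fun d => Good F (tw D d)) X : ℝ) / (num (fun _ => True) X : ℝ))
      atTop (𝓝 (c ^ Module.finrank ℚ F)) := by
  classical
  have hfin := finite_Ms hF
  let _ : Fintype (Ms F) := Fintype.ofFinite _
  set T : Finset ℕ := Finset.univ.image fun M : Ms F => tw M D with hT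
  have hTF : ∀ M ∈ T, Family M := by
    intro M hM
    obtain ⟨M', -, rfl⟩ := Finset.mem_image.1 hM
    exact Pool.Agent.T9h30.MQ.Ad.tw M'.2.1 hD
  have hcard : T.card = Module.finrank ℚ F := by
    rw [hT, Finset.card_image_of_injective, Finset.card_univ, ← Nat.card_eq_fintype_card, card_Ms hF]
    intro M M' hMM
    have h1 : tw D (tw M D) = (M : ℕ) := by
      show Pool.Agent.T9h30.MQ.tw D (Pool.Agent.T9h30.MQ.tw M D) = (M : ℕ)
      rw [Pool.Agent.T9h30.MQ.tw_comm M D, Pool.Agent.T9h30.MQ.tw_cancel hD M.2.1]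
    have h2 : tw D (tw M' D) = (M' : ℕ) := by
      show Pool.Agent.T9h30.MQ.tw D (Pool.Agent.T9h30.MQ.tw M' D) = (M' : ℕ)
      rw [Pool.Agent.T9h30.MQ.tw_comm M' D, Pool.Agent.T9h30.MQ.tw_cancel hD M'.2.1]
    apply Subtype.ext
    have h3 : tw M D = tw M' D := hMM
    rw [← h1, h3, h2]
  have h0 := ((Pool.Agent.Results.MP_03e5d0_nt.FullClassX49.result.2.1 T T hTF subset_rfl).1)
  rw [Nat.sub_self, pow_zero, mul_one, hcard] at h0
  have hiff : ∀ d : ℕ, Family d → (Good F (tw D d) ↔ Pattern T T d) := by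
    intro d hd
    rw [good_iff]
    have htt : ∀ M : Ms F, tw (tw M D) d = tw M (tw D d) := fun M =>
      Pool.Agent.T9h30.MQ.tw_tw M.2.1 hD hd
    constructor
    · intro h
      have h1 : ∀ M ∈ T, RankZeroShaTwo (tw M d) := by
        intro M hM
        obtain ⟨M', -, rfl⟩ := Finset.mem_image.1 hM
        rw [htt]
        exact h M'
      exact ⟨fun M hM => an_of' (Pool.Agent.T9h30.MQ.Ad.tw (hTF M hM) hd) (h1 M hM),
        fun M hM => iff_of_true (h1 M hM) hM⟩
    · rintro ⟨-, h⟩ M
      have hM : tw M D ∈ T := Finset.mem_image.2 ⟨M, Finset.mem_univ _, rfl⟩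
      rw [← htt]
      exact (h _ hM).2 hM
  have h1 : ∀ X : ℕ, num (fun d => Good F (tw D d)) X = num (Pattern T T) X := by
    intro X
    unfold num
    refine congrArg Finset.card (Finset.filter_congr fun d _ => ?_)
    exact and_congr_right fun hd => hiff d hd
  simp only [h1]
  exact h0

theorem good_quad {F : Type} [Field F] [NumberField F] {F' : Type} [Field F']
    [NumberField F'] [Algebra F F'] {d : ℕ} {x : F'} (hd : Family d) (hx : x ^ 2 = (d : F'))
    (hgen : ∀ y : F', ∃ a b : F, y = algebraMap F F' a + algebraMap F F' b * x) {D : ℕ}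
    (hD : Family D) : Good F' D ↔ Good F D ∧ Good F (tw D d) := by
  have hMs := Pool.Agent.T9h30.MQ.Ms_quad hd hx hgen
  have htt : ∀ M ∈ Ms F, tw (tw M d) D = tw M (tw D d) := by
    intro M hM
    show Pool.Agent.T9h30.MQ.tw (Pool.Agent.T9h30.MQ.tw M d) D =
      Pool.Agent.T9h30.MQ.tw M (Pool.Agent.T9h30.MQ.tw D d)
    rw [Pool.Agent.T9h30.MQ.tw_tw hM.1 hd hD, Pool.Agent.T9h30.MQ.tw_comm d D]
  constructor
  · intro h
    refine ⟨fun M hM hxM => ?_, fun M hM hxM => ?_⟩
    · have h1 := (hMs M).2 (Or.inl ⟨hM, hxM⟩)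
      exact h M h1.1 h1.2
    · have h1 := (hMs (tw M d)).2 (Or.inr ⟨M, ⟨hM, hxM⟩, rfl⟩)
      have h2 := h (tw M d) h1.1 h1.2
      rwa [htt M ⟨hM, hxM⟩] at h2
  · rintro ⟨h1, h2⟩ M hM hxM
    rcases (hMs M).1 ⟨hM, hxM⟩ with h | ⟨M', h, rfl⟩
    · exact h1 M h.1 h.2
    · have h3 := h2 M' h.1 h.2
      rw [← htt M' h] at h3
      exact h3

end proof

theorem result :
    (∀ (F : Type) [Field F] [NumberField F], Multiquadratic F → ∀ D : ℕ, Family D →
      (Good F D → RankZero F (curve F D)) ∧
      Tendsto (fun X : ℕ => (num (fun d => Good F (tw D d)) X : ℝ) / (num (fun _ => True) X : ℝ))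
        atTop (𝓝 (c ^ Module.finrank ℚ F)) ∧
      ∀ (F' : Type) [Field F'] [NumberField F'] [Algebra F F'] (d : ℕ) (x : F'), Family d →
        x ^ 2 = (d : F') → (∀ y : F', ∃ a b : F, y = algebraMap F F' a + algebraMap F F' b * x) →
          Multiquadratic F' ∧ (Good F' D ↔ Good F D ∧ Good F (tw D d))) ∧
    0.4194 < c ∧ c < 0.4195 := by
  refine ⟨fun F _ _ hF D hD => ⟨fun h => rankZero hF hD ((good_iff D).1 h), density hF hD, ?_⟩,
    Pool.Agent.Results.MP_03e5d0_nt.FullClassX49.result.2.2⟩
  intro F' _ _ _ d x hd hx hgen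
  exact ⟨Pool.Agent.T9h30.MQ.gen_quad hF hd hx hgen, good_quad hd hx hgen hD⟩

end Pool.Agent.Results.MP_cd906c_nt.MultiquadraticX49
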